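import Mathlib

set_option autoImplicit false

/-!
A self-contained asymmetric Lovász local lemma for the uniform measure on `E → Fin M`,
proved by counting, together with the independence lemma it rests on.
-/

namespace Pool.Agent.H58.LLL

open Finset

variable {E : Type*} [Fintype E] [DecidableEq E] {M : ℕ}

/-- The finite set `A` of outcomes is determined by the coordinates in `S`. -/
def DependsOn (A : Finset (E → Fin M)) (S : Finset E) : Prop :=
  ∀ ω ω' : E → Fin M, (∀ e ∈ S, ω e = ω' e) → (ω ∈ A ↔ ω' ∈ A)

theorem DependsOn.mono {A : Finset (E → Fin M)} {S S' : Finset E} (h : DependsOn A S)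
    (hS : S ⊆ S') : DependsOn A S' :=
  fun ω ω' hω => h ω ω' (fun e he => hω e (hS he))

theorem DependsOn.inter {A B : Finset (E → Fin M)} {S S' : Finset E} (hA : DependsOn A S)
    (hB : DependsOn B S') : DependsOn (A ∩ B) (S ∪ S') := by
  intro ω ω' h
  rw [mem_inter, mem_inter, hA ω ω' (fun e he => h e (mem_union_left _ he)),
    hB ω ω' (fun e he => h e (mem_union_right _ he))]

theorem DependsOn.compl {A : Finset (E → Fin M)} {S : Finset E} (hA : DependsOn A S) :
    DependsOn Aᶜ S := by
  intro ω ω' h
  rw [mem_compl, mem_compl, hA ω ω' h]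

theorem dependsOn_univ : DependsOn (univ : Finset (E → Fin M)) ∅ := by
  intro ω ω' _
  simp

/-- Mix two outcomes: coordinates in `S` from the first, the others from the second. -/
def mix (S : Finset E) (ω ω' : E → Fin M) : E → Fin M := fun e => if e ∈ S then ω e else ω' e

/-- Independence: events determined by disjoint sets of coordinates. -/
theorem card_inter_mul {A F : Finset (E → Fin M)} {S S' : Finset E} (hA : DependsOn A S)
    (hF : DependsOn F S') (hd : Disjoint S S') :
    (A ∩ F).card * Fintype.card (E → Fin M) = A.card * F.card := by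
  classical
  rw [← Finset.card_univ (α := E → Fin M), ← Finset.card_product, ← Finset.card_product]
  refine Finset.card_bij' (fun p _ => (mix S p.1 p.2, mix S p.2 p.1))
    (fun p _ => (mix S p.1 p.2, mix S p.2 p.1)) ?_ ?_ ?_ ?_
  · rintro ⟨ω1, ω2⟩ h
    rw [mem_product, mem_inter] at h
    rw [mem_product]
    constructor
    · rw [hA (mix S ω1 ω2) ω1 (fun e he => by simp [mix, he])]
      exact h.1.1
    · rw [hF (mix S ω2 ω1) ω1 (fun e he => by
        have : e ∉ S := fun h' => (Finset.disjoint_left.mp hd h') he
        simp [mix, this])]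
      exact h.1.2
  · rintro ⟨ω1, ω2⟩ h
    rw [mem_product] at h
    rw [mem_product, mem_inter]
    refine ⟨⟨?_, ?_⟩, mem_univ _⟩
    · rw [hA (mix S ω1 ω2) ω1 (fun e he => by simp [mix, he])]
      exact h.1
    · rw [hF (mix S ω1 ω2) ω2 (fun e he => by
        have : e ∉ S := fun h' => (Finset.disjoint_left.mp hd h') he
        simp [mix, this])]
      exact h.2
  · rintro ⟨ω1, ω2⟩ _
    apply Prod.ext <;> funext e <;> simp only [mix] <;> split_ifs <;> rfl
  · rintro ⟨ω1, ω2⟩ _
    apply Prod.ext <;> funext e <;> simp only [mix] <;> split_ifs <;> rfl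

/-- Uniform probability of a finite set of outcomes. -/
noncomputable def prob (A : Finset (E → Fin M)) : ℝ :=
  (A.card : ℝ) / (Fintype.card (E → Fin M) : ℝ)

theorem card_pos (hM : 0 < M) : 0 < (Fintype.card (E → Fin M) : ℝ) := by
  have : Nonempty (E → Fin M) := ⟨fun _ => ⟨0, hM⟩⟩
  exact_mod_cast Fintype.card_pos

theorem prob_nonneg (A : Finset (E → Fin M)) : 0 ≤ prob A := by
  unfold prob; positivity

theorem prob_mono {A B : Finset (E → Fin M)} (h : A ⊆ B) : prob A ≤ prob B := by
  unfold prob
  gcongr

theorem prob_univ (hM : 0 < M) : prob (univ : Finset (E → Fin M)) = 1 := by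
  unfold prob
  rw [Finset.card_univ]
  exact div_self (card_pos hM).ne'

theorem prob_inter_of_disjoint (hM : 0 < M) {A F : Finset (E → Fin M)} {S S' : Finset E}
    (hA : DependsOn A S) (hF : DependsOn F S') (hd : Disjoint S S') :
    prob (A ∩ F) = prob A * prob F := by
  have h := card_inter_mul hA hF hd
  have hc := card_pos (E := E) hM
  unfold prob
  rw [div_mul_div_comm, div_eq_div_iff hc.ne' (mul_pos hc hc).ne']
  have h' : ((A ∩ F).card : ℝ) * (Fintype.card (E → Fin M) : ℝ) = (A.card : ℝ) * F.card := by
    exact_mod_cast h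
  rw [← h']
  ring

theorem prob_compl (hM : 0 < M) (A : Finset (E → Fin M)) : prob Aᶜ = 1 - prob A := by
  have hc := card_pos (E := E) hM
  unfold prob
  rw [Finset.card_compl, Nat.cast_sub (Finset.card_le_univ A), sub_div, div_self hc.ne']

theorem prob_add_inter_compl (A B : Finset (E → Fin M)) :
    prob (A ∩ B) + prob (Aᶜ ∩ B) = prob B := by
  classical
  unfold prob
  rw [← add_div]
  congr 1
  have h : (A ∩ B).card + (Aᶜ ∩ B).card = B.card := by
    rw [← Finset.card_union_of_disjoint]
    · congr 1
      ext x
      simp only [mem_union, mem_inter, mem_compl]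
      tauto
    · rw [Finset.disjoint_left]
      intro x hx hx'
      rw [mem_inter] at hx hx'
      exact (mem_compl.mp hx'.1) hx.1
  exact_mod_cast h

/-- The outcomes avoiding all events indexed by `J`. -/
noncomputable def avoid {I : Type*} (A : I → Finset (E → Fin M)) (J : Finset I) :
    Finset (E → Fin M) := by
  classical exact univ.filter (fun ω => ∀ i ∈ J, ω ∉ A i)

theorem mem_avoid {I : Type*} (A : I → Finset (E → Fin M)) (J : Finset I) (ω : E → Fin M) :
    ω ∈ avoid A J ↔ ∀ i ∈ J, ω ∉ A i := by
  classical
  simp [avoid]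

theorem avoid_insert {I : Type*} [DecidableEq I] (A : I → Finset (E → Fin M)) (J : Finset I)
    (i : I) : avoid A (insert i J) = (A i)ᶜ ∩ avoid A J := by
  ext ω
  simp only [mem_avoid, mem_inter, mem_compl, mem_insert, forall_eq_or_imp]

theorem avoid_mono {I : Type*} (A : I → Finset (E → Fin M)) {J J' : Finset I} (h : J ⊆ J') :
    avoid A J' ⊆ avoid A J := by
  intro ω hω
  rw [mem_avoid] at hω ⊢
  exact fun i hi => hω i (h hi)

theorem avoid_dependsOn {I : Type*} [DecidableEq I] (A : I → Finset (E → Fin M))
    (S : I → Finset E) (hdep : ∀ i, DependsOn (A i) (S i)) (J : Finset I) :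
    DependsOn (avoid A J) (J.biUnion S) := by
  intro ω ω' h
  rw [mem_avoid, mem_avoid]
  constructor
  · intro h1 i hi h2
    apply h1 i hi
    rw [hdep i ω ω' (fun e he => h e (mem_biUnion.mpr ⟨i, hi, he⟩))]
    exact h2
  · intro h1 i hi h2
    apply h1 i hi
    rw [← hdep i ω ω' (fun e he => h e (mem_biUnion.mpr ⟨i, hi, he⟩))]
    exact h2

section LocalLemma

variable {I : Type*} [DecidableEq I] (A : I → Finset (E → Fin M)) (S : I → Finset E)

/-- The events among `J` (other than `i`) sharing a coordinate with `i`. -/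
def nbr (J : Finset I) (i : I) : Finset I := J.filter (fun j => j ≠ i ∧ ¬ Disjoint (S i) (S j))

/-- The key estimate of the local lemma. -/
theorem key (hM : 0 < M) (hdep : ∀ i, DependsOn (A i) (S i)) (x : I → ℝ)
    (hx0 : ∀ i, 0 ≤ x i) (hx1 : ∀ i, x i ≤ 1) (J : Finset I)
    (h : ∀ i ∈ J, prob (A i) ≤ x i * ∏ j ∈ nbr S J i, (1 - x j)) :
    ∀ (N : ℕ) (T : Finset I), T ⊆ J → T.card ≤ N → ∀ i ∈ J, i ∉ T →
      prob (A i ∩ avoid A T) ≤ x i * prob (avoid A T) := by
  intro N
  induction N with
  | zero =>
    intro T hT hc i hi hiT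
    have hT0 : T = ∅ := Finset.card_eq_zero.mp (Nat.le_zero.mp hc)
    subst hT0
    have h1 : avoid A (∅ : Finset I) = univ := by
      ext ω; simp [mem_avoid]
    rw [h1, inter_univ, prob_univ hM, mul_one]
    refine (h i hi).trans ?_
    apply mul_le_of_le_one_right (hx0 i)
    apply Finset.prod_le_one
    · intro j _; linarith [hx1 j]
    · intro j _; linarith [hx0 j]
  | succ N ih =>
    intro T hT hc i hi hiT
    -- split T
    set T1 := T.filter (fun j => ¬ Disjoint (S i) (S j)) with hT1
    set T2 := T.filter (fun j => Disjoint (S i) (S j)) with hT2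
    have hsplit : T = T1 ∪ T2 := by
      ext j
      simp only [hT1, hT2, mem_union, mem_filter]
      tauto
    have hT2T : T2 ⊆ T := filter_subset _ _
    have hT1T : T1 ⊆ T := filter_subset _ _
    -- upper bound
    have hup : prob (A i ∩ avoid A T) ≤ prob (A i) * prob (avoid A T2) := by
      calc prob (A i ∩ avoid A T) ≤ prob (A i ∩ avoid A T2) :=
            prob_mono (inter_subset_inter_left (avoid_mono A hT2T))
        _ = prob (A i) * prob (avoid A T2) := by
            apply prob_inter_of_disjoint hM (hdep i) (avoid_dependsOn A S hdep T2)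
            rw [Finset.disjoint_biUnion_right]
            intro j hj
            exact (mem_filter.mp hj).2
    -- lower bound
    have hlow : ∀ U : Finset I, U ⊆ T1 →
        (∏ j ∈ U, (1 - x j)) * prob (avoid A T2) ≤ prob (avoid A (U ∪ T2)) := by
      intro U
      induction U using Finset.induction_on with
      | empty => intro _; simp
      | insert a U haU ihU =>
        intro hU
        have haT1 : a ∈ T1 := hU (mem_insert_self a U)
        have hUT1 : U ⊆ T1 := fun y hy => hU (mem_insert_of_mem hy)
        have haT2 : a ∉ T2 := by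
          intro h'
          exact (mem_filter.mp haT1).2 (mem_filter.mp h').2
        have haUT2 : a ∉ U ∪ T2 := by
          rw [mem_union]; tauto
        have hsub : insert a (U ∪ T2) ⊆ T := by
          intro y hy
          rw [mem_insert, mem_union] at hy
          rcases hy with rfl | hy | hy
          · exact hT1T haT1
          · exact hT1T (hUT1 hy)
          · exact hT2T hy
        have hcard : (U ∪ T2).card ≤ N := by
          have h1 := Finset.card_le_card hsub
          rw [Finset.card_insert_of_notMem haUT2] at h1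
          omega
        have hUT : U ∪ T2 ⊆ J := fun y hy => hT (hsub (mem_insert_of_mem hy))
        have h2 := ih (U ∪ T2) hUT hcard a (hT (hT1T haT1)) haUT2
        have h3 := prob_add_inter_compl (A a) (avoid A (U ∪ T2))
        rw [insert_union, avoid_insert, prod_insert haU]
        have h4 := ihU hUT1
        have h5 : 0 ≤ 1 - x a := by linarith [hx1 a]
        calc (1 - x a) * (∏ j ∈ U, (1 - x j)) * prob (avoid A T2)
            = (1 - x a) * ((∏ j ∈ U, (1 - x j)) * prob (avoid A T2)) := by ring
          _ ≤ (1 - x a) * prob (avoid A (U ∪ T2)) := mul_le_mul_of_nonneg_left h4 h5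
          _ ≤ prob ((A a)ᶜ ∩ avoid A (U ∪ T2)) := by linarith
    have hlow1 := hlow T1 (Subset.refl _)
    rw [← hsplit] at hlow1
    -- compare the products
    have hprod : ∏ j ∈ nbr S J i, (1 - x j) ≤ ∏ j ∈ T1, (1 - x j) := by
      have hsubn : T1 ⊆ nbr S J i := by
        intro j hj
        have hj' := mem_filter.mp hj
        rw [nbr, mem_filter]
        refine ⟨hT hj'.1, ?_, hj'.2⟩
        rintro rfl
        exact hiT hj'.1
      rw [← Finset.prod_sdiff hsubn]
      apply mul_le_of_le_one_left
      · exact Finset.prod_nonneg (fun j _ => by linarith [hx1 j])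
      · apply Finset.prod_le_one
        · intro j _; linarith [hx1 j]
        · intro j _; linarith [hx0 j]
    calc prob (A i ∩ avoid A T) ≤ prob (A i) * prob (avoid A T2) := hup
      _ ≤ (x i * ∏ j ∈ nbr S J i, (1 - x j)) * prob (avoid A T2) :=
          mul_le_mul_of_nonneg_right (h i hi) (prob_nonneg _)
      _ ≤ (x i * ∏ j ∈ T1, (1 - x j)) * prob (avoid A T2) := by
          apply mul_le_mul_of_nonneg_right _ (prob_nonneg _)
          exact mul_le_mul_of_nonneg_left hprod (hx0 i)
      _ = x i * ((∏ j ∈ T1, (1 - x j)) * prob (avoid A T2)) := by ring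
      _ ≤ x i * prob (avoid A T) := mul_le_mul_of_nonneg_left hlow1 (hx0 i)

/-- The asymmetric Lovász local lemma. -/
theorem exists_avoid (hM : 0 < M) (hdep : ∀ i, DependsOn (A i) (S i)) (x : I → ℝ)
    (hx0 : ∀ i, 0 ≤ x i) (hx1 : ∀ i, x i < 1) (J : Finset I)
    (h : ∀ i ∈ J, prob (A i) ≤ x i * ∏ j ∈ nbr S J i, (1 - x j)) :
    ∃ ω : E → Fin M, ∀ i ∈ J, ω ∉ A i := by
  have hx1' : ∀ i, x i ≤ 1 := fun i => (hx1 i).le
  have hpos : ∀ T : Finset I, T ⊆ J → 0 < prob (avoid A T) := by
    intro T
    induction T using Finset.induction_on with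
    | empty =>
      intro _
      have h1 : avoid A (∅ : Finset I) = univ := by
        ext ω; simp [mem_avoid]
      rw [h1, prob_univ hM]
      norm_num
    | insert a T haT ihT =>
      intro hT
      have hTJ : T ⊆ J := fun y hy => hT (mem_insert_of_mem hy)
      have h1 := ihT hTJ
      have h2 := key A S hM hdep x hx0 hx1' J h T.card T hTJ le_rfl a
        (hT (mem_insert_self a T)) haT
      have h3 := prob_add_inter_compl (A a) (avoid A T)
      rw [avoid_insert]
      have h4 : 0 < (1 - x a) * prob (avoid A T) :=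
        mul_pos (by linarith [hx1 a]) h1
      linarith
  have hJ := hpos J (Subset.refl _)
  have hne : (avoid A J).Nonempty := by
    by_contra hcon
    rw [Finset.not_nonempty_iff_eq_empty] at hcon
    rw [hcon] at hJ
    simp [prob] at hJ
  obtain ⟨ω, hω⟩ := hne
  exact ⟨ω, (mem_avoid A J ω).mp hω⟩

end LocalLemma

end Pool.Agent.H58.LLL
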