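import Mathlib

set_option autoImplicit false

/-!
Danger graphs. For a graph of minimum degree at least `n/2`, `DG G s` joins the non-adjacent
pairs with at most `s` common neighbours. If some vertex has many neighbours in `DG G t` then
`DG G s` is bipartite.
-/

namespace Pool.Agent.H58.Danger

open Finset

section Seq

variable {V : Type*} (H : SimpleGraph V)

/-- Closing up a segment of a walk sequence. -/
theorem closing (w : ℕ → V) (a l : ℕ) (hl : 0 < l)
    (hadj : ∀ i, a ≤ i → i < a + l → H.Adj (w i) (w (i + 1))) (heq : w a = w (a + l)) :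
    ∃ w' : ℕ → V, (∀ i, H.Adj (w' i) (w' (i + 1))) ∧ ∀ i, w' (i + l) = w' i := by
  refine ⟨fun x => w (a + x % l), ?_, ?_⟩
  · intro i
    have hlt : i % l < l := Nat.mod_lt i hl
    have h1 := hadj (a + i % l) (by omega) (by omega)
    show H.Adj (w (a + i % l)) (w (a + (i + 1) % l))
    by_cases hc : i % l + 1 = l
    · have h2 : (i + 1) % l = 0 := by
        rw [Nat.add_mod]
        rcases Nat.lt_or_ge 1 l with h | h
        · rw [Nat.mod_eq_of_lt h, hc, Nat.mod_self]
        · have : l = 1 := by omega
          subst this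
          exact Nat.mod_one _
      rw [h2, Nat.add_zero, heq]
      have h3 : a + l = a + i % l + 1 := by omega
      rw [h3]
      exact h1
    · have h2 : (i + 1) % l = i % l + 1 := by
        rw [Nat.add_mod]
        rcases Nat.lt_or_ge 1 l with h | h
        · rw [Nat.mod_eq_of_lt h]
          exact Nat.mod_eq_of_lt (by omega)
        · omega
      rw [h2]
      exact h1
  · intro i
    simp

/-- A graph that is not 2-colourable has an odd closed sequence with distinct vertices in every
window shorter than the period. -/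
theorem exists_min_odd_seq (h : ¬ H.Colorable 2) :
    ∃ (k : ℕ) (w : ℕ → V), Odd k ∧ (∀ i, w (i + k) = w i) ∧
      (∀ i, H.Adj (w i) (w (i + 1))) ∧ (∀ i j, i < j → j < i + k → w i ≠ w j) := by
  classical
  have hex : ∃ k, Odd k ∧ ∃ w : ℕ → V, (∀ i, H.Adj (w i) (w (i + 1))) ∧
      ∀ i, w (i + k) = w i := by
    rw [SimpleGraph.two_colorable_iff_forall_loop_even] at h
    push Not at h
    obtain ⟨u, p, hp⟩ := h
    have hodd : Odd p.length := by rwa [← Nat.not_even_iff_odd]
    obtain ⟨w', h1, h2⟩ := closing H p.getVert 0 p.length hodd.pos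
      (fun i _ hi => p.adj_getVert_succ (by omega)) (by simp)
    exact ⟨p.length, hodd, w', h1, h2⟩
  set k := Nat.find hex with hk
  obtain ⟨hodd, w, hadj, hper⟩ := Nat.find_spec hex
  refine ⟨k, w, hodd, hper, hadj, ?_⟩
  intro i j hij hjk heq
  rcases Nat.even_or_odd (j - i) with he | ho
  · -- use the other part
    have hl : Odd (k - (j - i)) := Nat.Odd.sub_even (by omega) hodd he
    obtain ⟨w', h1, h2⟩ := closing H w j (k - (j - i)) hl.pos (fun x _ _ => hadj x)
      (by
        have : j + (k - (j - i)) = i + k := by omega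
        rw [this, hper, heq])
    have := Nat.find_min' hex ⟨hl, w', h1, h2⟩
    omega
  · obtain ⟨w', h1, h2⟩ := closing H w i (j - i) ho.pos (fun x _ _ => hadj x)
      (by
        have : i + (j - i) = j := by omega
        rw [this, heq])
    have := Nat.find_min' hex ⟨ho, w', h1, h2⟩
    omega

/-- A slowly varying integer sequence needs many steps to cross from above `h` to below `-h`. -/
theorem crossing (β : ℕ → ℤ) (d h : ℤ) (N : ℕ) (hd : ∀ i, |β (i + 1) - β i| ≤ d)
    (h0 : h < β 0) (hN : β N < -h) (hh : 0 ≤ h) :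
    ∃ i1 i2 : ℕ, i1 < i2 ∧ i2 ≤ N ∧ (∀ i, i1 < i → i < i2 → |β i| ≤ h) ∧
      2 * h < ((i2 : ℤ) - i1) * d := by
  classical
  have hex : ∃ i, β i < -h := ⟨N, hN⟩
  set i2 := Nat.find hex with hi2
  have h2 : β i2 < -h := Nat.find_spec hex
  have h2le : i2 ≤ N := Nat.find_min' hex hN
  have h2pos : 0 < i2 := by
    rcases Nat.eq_zero_or_pos i2 with h' | h'
    · rw [h'] at h2; omega
    · exact h'
  set i1 := Nat.findGreatest (fun i => h < β i) (i2 - 1) with hi1
  have h1 : h < β i1 := Nat.findGreatest_spec (P := fun i => h < β i) (Nat.zero_le _) h0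
  have h1le : i1 ≤ i2 - 1 := Nat.findGreatest_le _
  have hlt : i1 < i2 := by omega
  have htel : ∀ j : ℕ, β i1 - β (i1 + j) ≤ j * d := by
    intro j
    induction j with
    | zero => simp
    | succ j ih =>
      have := (abs_le.mp (hd (i1 + j))).1
      rw [← Nat.add_assoc]
      push_cast
      linarith
  refine ⟨i1, i2, hlt, h2le, ?_, ?_⟩
  · intro i hi hi'
    rw [abs_le]
    constructor
    · have := Nat.find_min hex hi'
      omega
    · have := Nat.findGreatest_is_greatest (P := fun i => h < β i) (n := i2 - 1) hi (by omega)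
      simp only [not_lt] at this
      exact this
  · have h3 := htel (i2 - i1)
    rw [show i1 + (i2 - i1) = i2 by omega] at h3
    rw [Nat.cast_sub hlt.le] at h3
    linarith

end Seq

section Graph

variable {V : Type*} [Fintype V] [DecidableEq V] (G : SimpleGraph V) [DecidableRel G.Adj]

/-- Common neighbours. -/
def com (u v : V) : Finset V := G.neighborFinset u ∩ G.neighborFinset v

/-- Vertices adjacent to neither. -/
def mis (u v : V) : Finset V := (G.neighborFinset u ∪ G.neighborFinset v)ᶜ

theorem com_comm (u v : V) : com G u v = com G v u := inter_comm _ _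

/-- The danger graph at scale `s`. -/
def DG (s : ℕ) : SimpleGraph V where
  Adj u v := u ≠ v ∧ ¬ G.Adj u v ∧ (com G u v).card ≤ s
  symm := ⟨fun u v h => ⟨h.1.symm, fun h' => h.2.1 h'.symm, by rw [com_comm]; exact h.2.2⟩⟩
  loopless := ⟨fun u h => h.1 rfl⟩

instance (s : ℕ) : DecidableRel (DG G s).Adj := fun u v =>
  inferInstanceAs (Decidable (u ≠ v ∧ ¬ G.Adj u v ∧ (com G u v).card ≤ s))

variable {G}

theorem mis_card_le (hdeg : ∀ v, Fintype.card V ≤ 2 * G.degree v) (u v : V) :
    (mis G u v).card ≤ (com G u v).card := by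
  have h1 := Finset.card_union_add_card_inter (G.neighborFinset u) (G.neighborFinset v)
  have h2 := hdeg u
  have h3 := hdeg v
  rw [← G.card_neighborFinset_eq_degree] at h2 h3
  unfold mis com
  rw [Finset.card_compl]
  have h4 := Finset.card_le_univ (G.neighborFinset u ∪ G.neighborFinset v)
  omega

/-- An odd closed sequence in the danger graph is long. -/
theorem odd_seq_bound (hdeg : ∀ v, Fintype.card V ≤ 2 * G.degree v) (s k : ℕ) (w : ℕ → V)
    (hper : w k = w 0) (hk : Odd k) (hadj : ∀ i, (DG G s).Adj (w i) (w (i + 1))) :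
    Fintype.card V ≤ k * (2 * s) := by
  have hcov : (univ : Finset V) ⊆
      (range k).biUnion (fun i => com G (w i) (w (i + 1)) ∪ mis G (w i) (w (i + 1))) := by
    intro x _
    by_contra hx
    have hx' : ∀ i, i < k → (x ∈ G.neighborFinset (w (i + 1)) ↔ ¬ x ∈ G.neighborFinset (w i)) := by
      intro i hi
      have h1 : x ∉ com G (w i) (w (i + 1)) ∪ mis G (w i) (w (i + 1)) := by
        intro h'
        exact hx (mem_biUnion.mpr ⟨i, mem_range.mpr hi, h'⟩)
      simp only [com, mis, mem_union, mem_inter, mem_compl] at h1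
      tauto
    have hpar : ∀ i, i ≤ k →
        (x ∈ G.neighborFinset (w i) ↔ (x ∈ G.neighborFinset (w 0) ↔ Even i)) := by
      intro i
      induction i with
      | zero => intro _; simp
      | succ i ih =>
        intro hi
        rw [hx' i (by omega), ih (by omega), Nat.even_add_one]
        tauto
    have h2 := hpar k le_rfl
    rw [hper] at h2
    have h3 : ¬ Even k := Nat.not_even_iff_odd.mpr hk
    tauto
  calc Fintype.card V = (univ : Finset V).card := rfl
    _ ≤ _ := card_le_card hcov
    _ ≤ ∑ i ∈ range k, (com G (w i) (w (i + 1)) ∪ mis G (w i) (w (i + 1))).card :=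
        card_biUnion_le
    _ ≤ ∑ _i ∈ range k, 2 * s := by
        apply sum_le_sum
        intro i _
        have h1 := (hadj i).2.2
        have h2 := mis_card_le hdeg (w i) (w (i + 1))
        have h3 := card_union_le (com G (w i) (w (i + 1))) (mis G (w i) (w (i + 1)))
        omega
    _ = k * (2 * s) := by simp

variable (G) in
/-- Number of neighbours in `K`. -/
def aK (K : Finset V) (x : V) : ℕ := (K ∩ G.neighborFinset x).card

theorem aK_le (K : Finset V) (x : V) : aK G K x ≤ K.card := card_le_card inter_subset_left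

theorem aK_add (hdeg : ∀ v, Fintype.card V ≤ 2 * G.degree v) (K : Finset V) (s : ℕ) (x y : V)
    (h : (DG G s).Adj x y) :
    aK G K x + aK G K y ≤ K.card + s ∧ K.card ≤ aK G K x + aK G K y + s := by
  have h1 := Finset.card_union_add_card_inter (K ∩ G.neighborFinset x) (K ∩ G.neighborFinset y)
  have h2 : ((K ∩ G.neighborFinset x) ∪ (K ∩ G.neighborFinset y)).card ≤ K.card :=
    card_le_card (union_subset inter_subset_left inter_subset_left)
  have h3 : ((K ∩ G.neighborFinset x) ∩ (K ∩ G.neighborFinset y)).card ≤ s := by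
    refine (card_le_card ?_).trans h.2.2
    intro z hz
    simp only [mem_inter] at hz
    exact mem_inter.mpr ⟨hz.1.2, hz.2.2⟩
  have h4 : K.card ≤ ((K ∩ G.neighborFinset x) ∪ (K ∩ G.neighborFinset y)).card + s := by
    have h5 : K ⊆ ((K ∩ G.neighborFinset x) ∪ (K ∩ G.neighborFinset y)) ∪ mis G x y := by
      intro z hz
      simp only [mis, mem_union, mem_inter, mem_compl]
      tauto
    have h6 := card_le_card h5
    have h7 := card_union_le ((K ∩ G.neighborFinset x) ∪ (K ∩ G.neighborFinset y)) (mis G x y)
    have h8 := mis_card_le hdeg x y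
    have h9 := h.2.2
    omega
  unfold aK
  omega

/-- There are at most `8 t` mixed vertices. -/
theorem mixed_card (hdeg : ∀ v, Fintype.card V ≤ 2 * G.degree v) (t : ℕ) (u0 : V)
    (K : Finset V) (hK : K = univ.filter (fun v => (DG G t).Adj u0 v)) (hpos : 0 < K.card) :
    (univ.filter (fun x => K.card ≤ 4 * aK G K x ∧ 4 * aK G K x ≤ 3 * K.card)).card ≤ 8 * t := by
  classical
  set S := G.neighborFinset u0 with hS
  set A := univ.filter (fun x => K.card ≤ 4 * aK G K x ∧ 4 * aK G K x ≤ 3 * K.card) with hA
  have hKt : ∀ v ∈ K, (com G u0 v).card ≤ t ∧ (mis G u0 v).card ≤ t := by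
    intro v hv
    rw [hK, mem_filter] at hv
    have := hv.2.2.2
    exact ⟨this, (mis_card_le hdeg u0 v).trans this⟩
  -- inside S
  have h1 : ∑ x ∈ S, aK G K x ≤ K.card * t := by
    have e : ∑ x ∈ S, aK G K x = ∑ v ∈ K, (com G u0 v).card := by
      simp only [aK, com, ← hS]
      have e1 : ∀ x, (K ∩ G.neighborFinset x).card = ∑ v ∈ K, if G.Adj x v then 1 else 0 := by
        intro x
        rw [← Finset.card_filter]
        congr 1
        ext v
        simp
      have e2 : ∀ v, (S ∩ G.neighborFinset v).card = ∑ x ∈ S, if G.Adj x v then 1 else 0 := by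
        intro v
        rw [← Finset.card_filter]
        congr 1
        ext x
        simp [G.adj_comm]
      simp only [e1, e2]
      exact sum_comm
    rw [e]
    calc ∑ v ∈ K, (com G u0 v).card ≤ ∑ _v ∈ K, t := sum_le_sum (fun v hv => (hKt v hv).1)
      _ = K.card * t := by simp
  have h2 : ∑ x ∈ Sᶜ, (K.card - aK G K x) ≤ K.card * t := by
    have e : ∑ x ∈ Sᶜ, (K.card - aK G K x) = ∑ v ∈ K, (mis G u0 v).card := by
      have e1 : ∀ x, K.card - aK G K x = ∑ v ∈ K, if G.Adj x v then 0 else 1 := by
        intro x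
        have h3 : (K ∩ G.neighborFinset x).card + (K.filter (fun v => ¬ G.Adj x v)).card
            = K.card := by
          rw [← Finset.card_filter_add_card_filter_not (s := K) (p := fun v => G.Adj x v)]
          congr 2
          ext v
          simp
        have h4 : (K.filter (fun v => ¬ G.Adj x v)).card = ∑ v ∈ K, if G.Adj x v then 0 else 1 := by
          rw [Finset.card_filter]
          apply sum_congr rfl
          intro v _
          by_cases h : G.Adj x v <;> simp [h]
        unfold aK
        omega
      have e2 : ∀ v, (mis G u0 v).card = ∑ x ∈ Sᶜ, if G.Adj x v then 0 else 1 := by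
        intro v
        have h4 : mis G u0 v = Sᶜ.filter (fun x => ¬ G.Adj x v) := by
          ext x
          simp only [mis, ← hS, mem_compl, mem_union, mem_filter,
            SimpleGraph.mem_neighborFinset, not_or, G.adj_comm x v]
        rw [h4, Finset.card_filter]
        apply sum_congr rfl
        intro x _
        by_cases h : G.Adj x v <;> simp [h]
      simp only [e1, e2]
      exact sum_comm
    rw [e]
    calc ∑ v ∈ K, (mis G u0 v).card ≤ ∑ _v ∈ K, t := sum_le_sum (fun v hv => (hKt v hv).2)
      _ = K.card * t := by simp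
  -- counting
  have h3 : (A ∩ S).card * K.card ≤ 4 * (K.card * t) := by
    calc (A ∩ S).card * K.card = ∑ _x ∈ A ∩ S, K.card := by simp
      _ ≤ ∑ x ∈ A ∩ S, 4 * aK G K x := by
          apply sum_le_sum
          intro x hx
          exact (mem_filter.mp (mem_inter.mp hx).1).2.1
      _ ≤ ∑ x ∈ S, 4 * aK G K x :=
          sum_le_sum_of_subset_of_nonneg inter_subset_right (fun _ _ _ => Nat.zero_le _)
      _ = 4 * ∑ x ∈ S, aK G K x := by rw [mul_sum]
      _ ≤ 4 * (K.card * t) := by omega
  have h4 : (A ∩ Sᶜ).card * K.card ≤ 4 * (K.card * t) := by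
    calc (A ∩ Sᶜ).card * K.card = ∑ _x ∈ A ∩ Sᶜ, K.card := by simp
      _ ≤ ∑ x ∈ A ∩ Sᶜ, 4 * (K.card - aK G K x) := by
          apply sum_le_sum
          intro x hx
          have h5 := (mem_filter.mp (mem_inter.mp hx).1).2.2
          have h6 := aK_le (G := G) K x
          omega
      _ ≤ ∑ x ∈ Sᶜ, 4 * (K.card - aK G K x) :=
          sum_le_sum_of_subset_of_nonneg inter_subset_right (fun _ _ _ => Nat.zero_le _)
      _ = 4 * ∑ x ∈ Sᶜ, (K.card - aK G K x) := by rw [mul_sum]
      _ ≤ 4 * (K.card * t) := by omega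
  have h5 : A.card = (A ∩ S).card + (A ∩ Sᶜ).card := by
    rw [← card_union_of_disjoint]
    · congr 1
      ext x
      simp only [mem_union, mem_inter, mem_compl]
      tauto
    · rw [Finset.disjoint_left]
      intro x hx hx'
      exact (mem_compl.mp (mem_inter.mp hx').2) (mem_inter.mp hx).2
  have h6 : (A ∩ S).card ≤ 4 * t := by
    by_contra hcon
    push Not at hcon
    have : (4 * t + 1) * K.card ≤ (A ∩ S).card * K.card := Nat.mul_le_mul_right _ hcon
    nlinarith
  have h7 : (A ∩ Sᶜ).card ≤ 4 * t := by
    by_contra hcon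
    push Not at hcon
    have : (4 * t + 1) * K.card ≤ (A ∩ Sᶜ).card * K.card := Nat.mul_le_mul_right _ hcon
    nlinarith
  omega

/-- If some vertex has many neighbours in `DG G t` then `DG G s` is bipartite. -/
theorem danger_bipartite (hdeg : ∀ v, Fintype.card V ≤ 2 * G.degree v) (s t : ℕ) (u0 : V)
    (hbig : 2 * s * (8 * t + 1) < (univ.filter (fun v => (DG G t).Adj u0 v)).card) :
    (DG G s).Colorable 2 := by
  classical
  by_contra hcol
  obtain ⟨k, w, hodd, hper, hadj, hinj⟩ := exists_min_odd_seq (DG G s) hcol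
  set K := univ.filter (fun v => (DG G t).Adj u0 v) with hK
  have hKpos : 0 < K.card := by omega
  have hmix := mixed_card hdeg t u0 K hK hKpos
  set A := univ.filter (fun x => K.card ≤ 4 * aK G K x ∧ 4 * aK G K x ≤ 3 * K.card) with hA
  -- windows inside A are short
  have hwin : ∀ a l : ℕ, l ≤ k → (∀ i, a ≤ i → i < a + l → w i ∈ A) → l ≤ 8 * t := by
    intro a l hl hin
    have h1 : ((range l).image (fun i => w (a + i))) ⊆ A := by
      intro x hx
      obtain ⟨i, hi, rfl⟩ := mem_image.mp hx
      have := mem_range.mp hi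
      exact hin (a + i) (by omega) (by omega)
    have h2 : ((range l).image (fun i => w (a + i))).card = l := by
      rw [card_image_of_injOn, card_range]
      intro i hi j hj hij
      have hi' := mem_range.mp (mem_coe.mp hi)
      have hj' := mem_range.mp (mem_coe.mp hj)
      simp only at hij
      rcases lt_trichotomy i j with h | h | h
      · exact absurd hij (hinj (a + i) (a + j) (by omega) (by omega))
      · exact h
      · exact absurd hij.symm (hinj (a + j) (a + i) (by omega) (by omega))
    have h3 := card_le_card h1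
    omega
  by_cases hall : ∀ i, w i ∈ A
  · have h1 := hwin 0 k le_rfl (fun i _ _ => hall i)
    have h2 := odd_seq_bound hdeg s k w (by simpa using hper 0) hodd hadj
    have h3 : K.card ≤ Fintype.card V := card_le_univ K
    have h4 : k * (2 * s) ≤ 8 * t * (2 * s) := Nat.mul_le_mul_right _ h1
    nlinarith
  · push Not at hall
    obtain ⟨i0, hi0⟩ := hall
    -- signed sequence
    let b : V → ℤ := fun x => 4 * (aK G K x : ℤ) - 2 * K.card
    let β : ℕ → ℤ := fun i => (-1) ^ i * b (w i)
    have hbA : ∀ x, |b x| ≤ K.card → x ∈ A := by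
      intro x hx
      have h1 := abs_le.mp hx
      simp only [b] at h1
      rw [hA, mem_filter]
      refine ⟨mem_univ _, ?_, ?_⟩ <;> omega
    have hβabs : ∀ i, |β i| = |b (w i)| := by
      intro i
      simp only [β, abs_mul, abs_pow, abs_neg, abs_one, one_pow, one_mul]
    have hstep : ∀ i, |β (i + 1) - β i| ≤ 4 * (s : ℤ) := by
      intro i
      have h1 : β (i + 1) - β i = -((-1) ^ i * (b (w (i + 1)) + b (w i))) := by
        simp only [β, pow_succ]; ring
      rw [h1, abs_neg, abs_mul, abs_pow, abs_neg, abs_one, one_pow, one_mul]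
      have h2 := aK_add hdeg K s (w i) (w (i + 1)) (hadj i)
      simp only [b]
      rw [abs_le]
      omega
    have hper2 : ∀ i, β (i + k) = - β i := by
      intro i
      simp only [β, hper, pow_add, hodd.neg_one_pow]
      ring
    have hbig0 : (K.card : ℤ) < |β i0| := by
      rw [hβabs]
      by_contra hcon
      exact hi0 (hbA _ (not_lt.mp hcon))
    obtain ⟨j0, hj0⟩ : ∃ j0, (K.card : ℤ) < β j0 := by
      rcases le_total 0 (β i0) with h | h
      · exact ⟨i0, by rwa [abs_of_nonneg h] at hbig0⟩
      · refine ⟨i0 + k, ?_⟩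
        rw [hper2]
        rwa [abs_of_nonpos h] at hbig0
    obtain ⟨i1, i2, h12, h2k, hmid, hlong⟩ := crossing (fun i => β (j0 + i)) (4 * (s : ℤ)) K.card k
      (fun i => hstep (j0 + i)) (by simpa using hj0)
      (by
        show β (j0 + k) < _
        rw [hper2]; omega) (by positivity)
    have h5 := hwin (j0 + i1 + 1) (i2 - i1 - 1) (by omega) (by
      intro i hi hi'
      apply hbA
      have h6 := hmid (i - j0) (by omega) (by omega)
      rw [show j0 + (i - j0) = i by omega, hβabs] at h6
      exact h6)
    have h6 : (i2 : ℤ) - i1 ≤ 8 * t + 1 := by omega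
    have h7 : 2 * (K.card : ℤ) < (8 * t + 1) * (4 * s) :=
      lt_of_lt_of_le hlong (mul_le_mul_of_nonneg_right h6 (by positivity))
    have h8 : ((2 * s * (8 * t + 1) : ℕ) : ℤ) < K.card := by exact_mod_cast hbig
    push_cast at h8
    nlinarith

/-- A good scale exists. -/
theorem exists_scale (hdeg : ∀ v, Fintype.card V ≤ 2 * G.degree v) (T0 : ℕ) (hT0 : 1 ≤ T0)
    (hcom : ∀ u v, u ≠ v → ¬ G.Adj u v → T0 ^ 3 < (com G u v).card) :
    ∃ T, T0 ≤ T ∧ (DG G (T ^ 3)).Colorable 2 ∧
      ∀ j, T < j → ∀ u, (univ.filter (fun v => (DG G j).Adj u v)).card ≤ 18 * j ^ 4 := by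
  classical
  let P : ℕ → Prop := fun t =>
    T0 ≤ t ∧ ∃ u, 18 * t ^ 4 < (univ.filter (fun v => (DG G t).Adj u v)).card
  have hbd : ∀ t, P t → t ≤ Fintype.card V := by
    rintro t ⟨h1, u, hu⟩
    have h2 := card_le_univ (univ.filter (fun v => (DG G t).Adj u v))
    have h3 : t ≤ t ^ 4 := Nat.le_self_pow (by norm_num) t
    omega
  by_cases hP : ∃ t, P t
  · obtain ⟨t0, ht0⟩ := hP
    set T := Nat.findGreatest P (Fintype.card V) with hT
    have hTP : P T := Nat.findGreatest_spec (hbd t0 ht0) ht0
    obtain ⟨h1, u, hu⟩ := hTP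
    refine ⟨T, h1, ?_, ?_⟩
    · apply danger_bipartite hdeg (T ^ 3) T u
      refine lt_of_le_of_lt ?_ hu
      have h2 : T ^ 3 ≤ T ^ 4 := Nat.pow_le_pow_right (by omega) (by norm_num)
      have h3 : 2 * T ^ 3 * (8 * T + 1) = 16 * T ^ 4 + 2 * T ^ 3 := by ring
      omega
    · intro j hj u'
      by_contra hcon
      push Not at hcon
      have hPj : P j := ⟨by omega, u', hcon⟩
      have := Nat.le_findGreatest (hbd j hPj) hPj
      omega
  · push Not at hP
    refine ⟨T0, le_rfl, ?_, ?_⟩
    · refine ⟨SimpleGraph.Coloring.mk (fun _ => 0) ?_⟩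
      intro u v huv
      exact absurd huv.2.2 (not_le.mpr (hcom u v huv.1 huv.2.1))
    · intro j hj u
      by_contra hcon
      push Not at hcon
      exact hP j ⟨by omega, u, hcon⟩

end Graph

end Pool.Agent.H58.Danger
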