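import Mathlib

/-! Free groups are residually finite: a finite subset embeds into a finite quotient. -/

namespace H58.FreeRF

variable {α : Type*} [DecidableEq α]

/-- the index set on which the generator `a` is prescribed -/
def dom (L : List (α × Bool)) (a : α) : Set (Fin (L.length + 1)) :=
  {i | (∃ k : ℕ, i.1 = k + 1 ∧ L[k]? = some (a, true)) ∨ L[i.1]? = some (a, false)}

/-- the prescribed map of the generator `a` -/
def mv (L : List (α × Bool)) (a : α) (i : Fin (L.length + 1)) : ℕ :=
  if L[i.1]? = some (a, false) then i.1 + 1 else i.1 - 1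

omit [DecidableEq α] in
theorem adj {L : List (α × Bool)} (hL : FreeGroup.IsReduced L) {k : ℕ} {a : α} {b c : Bool}
    (h1 : L[k]? = some (a, b)) (h2 : L[k + 1]? = some (a, c)) : b = c := by
  rw [FreeGroup.IsReduced, List.isChain_iff_getElem] at hL
  obtain ⟨hk, e1⟩ := List.getElem?_eq_some_iff.1 h1
  obtain ⟨hk2, e2⟩ := List.getElem?_eq_some_iff.1 h2
  have := hL k (by omega)
  rw [e1, e2] at this
  exact this rfl

theorem exists_perm {L : List (α × Bool)} (hL : FreeGroup.IsReduced L) (a : α) :
    ∃ g : Equiv.Perm (Fin (L.length + 1)),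
      (∀ k : ℕ, ∀ hk : k < L.length, L[k]? = some (a, true) →
        g ⟨k + 1, by omega⟩ = ⟨k, by omega⟩) ∧
      (∀ k : ℕ, ∀ hk : k < L.length, L[k]? = some (a, false) →
        g ⟨k, by omega⟩ = ⟨k + 1, by omega⟩) := by
  classical
  -- the map as a function into `Fin`
  have hbd : ∀ i ∈ dom L a, mv L a i < L.length + 1 := by
    rintro ⟨i, hi⟩ h
    unfold mv
    split_ifs with h1
    · have := (List.getElem?_eq_some_iff.1 h1).1
      simp only at this ⊢
      omega
    · simp only
      omega
  let F : Fin (L.length + 1) → Fin (L.length + 1) := fun i =>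
    if h : i ∈ dom L a then ⟨mv L a i, hbd i h⟩ else i
  have hF : ∀ i ∈ dom L a, (F i).1 = mv L a i := fun i h => by simp [F, h]
  have hinj : Set.InjOn F (dom L a) := by
    rintro ⟨i, hi⟩ h ⟨j, hj⟩ h' e
    have e' : mv L a ⟨i, hi⟩ = mv L a ⟨j, hj⟩ := by rw [← hF _ h, ← hF _ h', e]
    ext
    simp only
    unfold mv at e'
    simp only [dom, Set.mem_ofPred_eq] at h h'
    split_ifs at e' with h1 h2 h2
    · simp only at e'
      omega
    · -- `L[i] = (a,false)`, `j = k + 1`, `L[k] = (a,true)`, `i + 1 = k`
      simp only at e' h1 h2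
      obtain ⟨k, rfl, hk⟩ | h' := h'
      · have : k = i + 1 := by omega
        subst this
        exact absurd (adj hL h1 hk) (by decide)
      · exact absurd h' h2
    · simp only at e' h1 h2
      obtain ⟨k, rfl, hk⟩ | h := h
      · have : k = j + 1 := by omega
        subst this
        exact absurd (adj hL h2 hk) (by decide)
      · exact absurd h h1
    · simp only at e' h1 h2
      obtain ⟨k, rfl, hk⟩ | h := h
      · obtain ⟨l, rfl, hl⟩ | h' := h'
        · omega
        · exact absurd h' h2
      · exact absurd h h1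
  obtain ⟨g, hg⟩ := Set.MapsTo.exists_equiv_extend_of_card_eq (α := Fin (L.length + 1))
    (t := (Finset.univ : Finset (Fin (L.length + 1)))) (by simp)
    (s := dom L a) (f := F) (fun _ _ => by simp) hinj
  let e : {x // x ∈ (Finset.univ : Finset (Fin (L.length + 1)))} ≃ Fin (L.length + 1) :=
    Equiv.subtypeUnivEquiv (fun x => Finset.mem_univ x)
  refine ⟨g.trans e, ?_, ?_⟩
  · intro k hk h
    have hm : (⟨k + 1, by omega⟩ : Fin (L.length + 1)) ∈ dom L a := Or.inl ⟨k, rfl, h⟩
    have := hg _ hm
    ext
    simp only [Equiv.trans_apply, e, Equiv.subtypeUnivEquiv_apply]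
    rw [this, hF _ hm]
    unfold mv
    rw [if_neg]
    · simp
    · intro h2
      simp only at h2
      exact absurd (adj hL h h2) (by decide)
  · intro k hk h
    have hm : (⟨k, by omega⟩ : Fin (L.length + 1)) ∈ dom L a := Or.inr h
    have := hg _ hm
    ext
    simp only [Equiv.trans_apply, e, Equiv.subtypeUnivEquiv_apply]
    rw [this, hF _ hm]
    unfold mv
    rw [if_pos]
    simpa using h

theorem exists_hom_ne_one (g : FreeGroup α) (hg : g ≠ 1) :
    ∃ (n : ℕ) (f : FreeGroup α →* Equiv.Perm (Fin n)), f g ≠ 1 := by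
  classical
  have hL : FreeGroup.IsReduced g.toWord := FreeGroup.isReduced_toWord
  have hmk : FreeGroup.mk g.toWord = g := FreeGroup.mk_toWord
  generalize g.toWord = L at hL hmk
  choose σ h1 h2 using exists_perm hL
  refine ⟨L.length + 1, FreeGroup.lift σ, ?_⟩
  have key : ∀ j k : ℕ, ∀ hk : j + k = L.length,
      FreeGroup.lift σ (FreeGroup.mk (L.drop k)) (Fin.last _) = ⟨k, by omega⟩ := by
    intro j
    induction j with
    | zero =>
      intro k hk
      have : L.drop k = [] := by
        apply List.drop_eq_nil_of_le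
        omega
      rw [this, ← FreeGroup.one_eq_mk, map_one]
      ext
      simp
      omega
    | succ j ih =>
      intro k hk
      have hk' : k < L.length := by omega
      have e : L.drop k = [L[k]] ++ L.drop (k + 1) := by
        rw [List.singleton_append, List.getElem_cons_drop]
      rw [e, ← FreeGroup.mul_mk, map_mul, Equiv.Perm.mul_apply, ih (k + 1) (by omega),
        FreeGroup.lift_mk]
      have h3 : L[k]? = some L[k] := List.getElem?_eq_getElem hk'
      rcases hc : L[k] with ⟨a, b⟩
      rw [hc] at h3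
      cases b with
      | true =>
        simp only [List.map_cons, List.map_nil, List.prod_cons, List.prod_nil, cond_true, mul_one]
        exact h1 a k hk' h3
      | false =>
        simp only [List.map_cons, List.map_nil, List.prod_cons, List.prod_nil, cond_false, mul_one]
        rw [← h2 a k hk' h3]
        simp
  have h0 := key L.length 0 (by omega)
  rw [List.drop_zero, hmk] at h0
  intro h
  rw [h] at h0
  have : L.length = 0 := by
    have := congrArg Fin.val h0
    simpa using this
  have hL0 : L = [] := List.eq_nil_of_length_eq_zero this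
  apply hg
  rw [← hmk, hL0, ← FreeGroup.one_eq_mk]

/-- a finite subset of a free group embeds into a finite quotient -/
theorem exists_finite_injOn (S : Set (FreeGroup α)) (hS : S.Finite) :
    ∃ (G : Type) (_ : Group G) (_ : Fintype G) (f : FreeGroup α →* G), Set.InjOn f S := by
  classical
  have hch : ∀ g : FreeGroup α, ∃ (n : ℕ) (f : FreeGroup α →* Equiv.Perm (Fin n)),
      g ≠ 1 → f g ≠ 1 := by
    intro g
    by_cases hg : g = 1
    · exact ⟨0, 1, fun h => absurd hg h⟩
    · obtain ⟨n, f, h⟩ := exists_hom_ne_one g hg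
      exact ⟨n, f, fun _ => h⟩
  choose n f hf using hch
  have := hS.fintype
  let ι := S × S
  let k := Fintype.card ι
  let en : Fin k ≃ ι := (Fintype.equivFin ι).symm
  refine ⟨∀ i : Fin k, Equiv.Perm (Fin (n ((en i).1.1⁻¹ * (en i).2.1))), inferInstance,
    inferInstance, MonoidHom.pi fun i => f _, ?_⟩
  intro x hx y hy e
  by_contra hne
  have h1 := congrFun e (en.symm (⟨x, hx⟩, ⟨y, hy⟩))
  have hne1 : x⁻¹ * y ≠ 1 := fun h => hne (inv_mul_eq_one.1 h)
  simp only [MonoidHom.pi_apply] at h1
  have h2 : (f ((en (en.symm (⟨x, hx⟩, ⟨y, hy⟩))).1.1⁻¹ * (en (en.symm (⟨x, hx⟩, ⟨y, hy⟩))).2.1))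
      (x⁻¹ * y) ≠ 1 := by
    have : (en (en.symm (⟨x, hx⟩, ⟨y, hy⟩))) = (⟨x, hx⟩, ⟨y, hy⟩) := Equiv.apply_symm_apply _ _
    generalize en (en.symm (⟨x, hx⟩, ⟨y, hy⟩)) = p at this
    subst this
    exact hf _ hne1
  apply h2
  rw [map_mul, map_inv, h1, inv_mul_cancel]

end H58.FreeRF
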