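import Pool.Agent.H58.LLL
import Pool.Agent.H58.Danger

set_option autoImplicit false

/-!
Existence of a 2-colouring of the edges such that every non-adjacent pair has a bichromatic
path of length two, for graphs of minimum degree at least `n/2 + c` with a large constant `c`.
-/

namespace Pool.Agent.H58.Rainbow

open Finset Pool.Agent.H58.LLL Pool.Agent.H58.Danger

/-! ### Numerical lemmas -/

theorem num1 (T j : ℕ) (hT : 3000 ≤ T) (hj : 8 ≤ j) :
    (3 / (T : ℝ)) ^ j ≤ 1 / (1000 * ((max j T : ℕ) : ℝ) ^ 6) := by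
  have hTR : (3000 : ℝ) ≤ T := by exact_mod_cast hT
  have hTpos : (0 : ℝ) < T := by linarith
  rcases le_total j T with h | h
  · rw [max_eq_right h]
    have h1 : (3 / (T : ℝ)) ^ j ≤ (3 / (T : ℝ)) ^ 8 := by
      apply pow_le_pow_of_le_one (by positivity) _ hj
      rw [div_le_one hTpos]; linarith
    refine h1.trans ?_
    rw [div_pow, div_le_div_iff₀ (by positivity) (by positivity)]
    have h2 : (T : ℝ) ^ 8 = T ^ 6 * T ^ 2 := by ring
    rw [h2]
    have h3 : (6561000 : ℝ) ≤ (T : ℝ) ^ 2 := by nlinarith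
    have h4 : (0 : ℝ) < (T : ℝ) ^ 6 := by positivity
    nlinarith
  · rw [max_eq_left h]
    have hjpos : (0 : ℝ) < (j : ℝ) := by
      have : 0 < j := by omega
      exact_mod_cast this
    have h1 : (3 / (T : ℝ)) ^ j ≤ (1 / 1000 : ℝ) ^ j := by
      apply pow_le_pow_left₀ (by positivity)
      rw [div_le_div_iff₀ hTpos (by norm_num)]
      linarith
    refine h1.trans ?_
    rw [one_div_pow]
    apply one_div_le_one_div_of_le (by positivity)
    have h2 : (j : ℝ) ≤ 2 ^ j := by exact_mod_cast Nat.lt_two_pow_self.le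
    have h3 : (j : ℝ) ^ 6 ≤ 64 ^ j := by
      calc (j : ℝ) ^ 6 ≤ (2 ^ j) ^ 6 := pow_le_pow_left₀ hjpos.le h2 6
        _ = 64 ^ j := by rw [← pow_mul, mul_comm, pow_mul]; norm_num
    have h4 : (1000 : ℝ) ≤ 15 ^ j := by
      calc (1000 : ℝ) ≤ 15 ^ 8 := by norm_num
        _ ≤ 15 ^ j := pow_le_pow_right₀ (by norm_num) hj
    calc (1000 : ℝ) * (j : ℝ) ^ 6 ≤ 15 ^ j * 64 ^ j := by
          apply mul_le_mul h4 h3 (by positivity) (by positivity)
      _ = 960 ^ j := by rw [← mul_pow]; norm_num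
      _ ≤ 1000 ^ j := pow_le_pow_left₀ (by norm_num) (by norm_num) j

theorem num2 (T j : ℕ) (hT : 3000 ≤ T) (hj : T ^ 3 < j) :
    Real.exp (-((j : ℝ) / (2 * T))) ≤ 1 / (1000 * (j : ℝ) ^ 6) := by
  have hTR : (3000 : ℝ) ≤ T := by exact_mod_cast hT
  have hTpos : (0 : ℝ) < T := by linarith
  have hjR : (T : ℝ) ^ 3 < j := by exact_mod_cast hj
  have hT3 : (27000000000 : ℝ) ≤ (T : ℝ) ^ 3 := by
    calc (27000000000 : ℝ) = 3000 ^ 3 := by norm_num
      _ ≤ (T : ℝ) ^ 3 := pow_le_pow_left₀ (by norm_num) hTR 3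
  have hjbig : (27000000000 : ℝ) ≤ j := by linarith
  have hjpos : (0 : ℝ) < j := by linarith
  rw [Real.exp_neg, ← one_div]
  apply one_div_le_one_div_of_le (by positivity)
  set y : ℝ := (j : ℝ) / (2 * T) with hy
  have hypos : 0 < y := by positivity
  have h1 := Real.pow_div_factorial_le_exp y hypos.le 12
  have h3 : (j : ℝ) ^ 2 / 8 ≤ y ^ 3 := by
    rw [hy, div_pow, mul_pow, div_le_div_iff₀ (by norm_num) (by positivity)]
    have : (j : ℝ) ^ 3 * 8 = (j : ℝ) ^ 2 * 8 * j := by ring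
    rw [this]
    have h4 : (j : ℝ) ^ 2 * (2 ^ 3 * (T : ℝ) ^ 3) = (j : ℝ) ^ 2 * 8 * (T : ℝ) ^ 3 := by ring
    rw [h4]
    apply mul_le_mul_of_nonneg_left hjR.le (by positivity)
  have h5 : ((j : ℝ) ^ 2 / 8) ^ 4 ≤ y ^ 12 := by
    calc ((j : ℝ) ^ 2 / 8) ^ 4 ≤ (y ^ 3) ^ 4 := pow_le_pow_left₀ (by positivity) h3 4
      _ = y ^ 12 := by rw [← pow_mul]
  have h6 : (1000 : ℝ) * (j : ℝ) ^ 6 * ((Nat.factorial 12 : ℕ) : ℝ) ≤ ((j : ℝ) ^ 2 / 8) ^ 4 := by
    have h7 : ((j : ℝ) ^ 2 / 8) ^ 4 = (j : ℝ) ^ 6 * ((j : ℝ) ^ 2 / 4096) := by ring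
    rw [h7]
    have h8 : ((Nat.factorial 12 : ℕ) : ℝ) = 479001600 := by norm_num [Nat.factorial]
    rw [h8]
    have h9 : (1000 : ℝ) * 479001600 ≤ (j : ℝ) ^ 2 / 4096 := by
      rw [le_div_iff₀ (by norm_num)]
      nlinarith
    have h10 : (0 : ℝ) < (j : ℝ) ^ 6 := by positivity
    nlinarith
  have hf : (0 : ℝ) < ((Nat.factorial 12 : ℕ) : ℝ) := by exact_mod_cast Nat.factorial_pos 12
  calc (1000 : ℝ) * (j : ℝ) ^ 6 ≤ y ^ 12 / ((Nat.factorial 12 : ℕ) : ℝ) := by
        rw [le_div_iff₀ hf]; exact h6.trans h5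
    _ ≤ Real.exp y := h1

theorem exp_neg_two_mul_le {x : ℝ} (h0 : 0 ≤ x) (h1 : x ≤ 1 / 2) : Real.exp (-(2 * x)) ≤ 1 - x := by
  rw [Real.exp_neg]
  have h2 : 1 + 2 * x ≤ Real.exp (2 * x) := by
    have := Real.add_one_le_exp (2 * x)
    linarith
  have h3 : (Real.exp (2 * x))⁻¹ ≤ (1 + 2 * x)⁻¹ := inv_anti₀ (by linarith) h2
  refine h3.trans ?_
  rw [inv_le_iff_one_le_mul₀ (by linarith)]
  nlinarith

theorem prod_one_sub_ge {ι : Type*} (s : Finset ι) (x : ι → ℝ) (h0 : ∀ i, 0 ≤ x i)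
    (h1 : ∀ i, x i ≤ 1 / 2) : Real.exp (-(2 * ∑ i ∈ s, x i)) ≤ ∏ i ∈ s, (1 - x i) := by
  have h2 : -(2 * ∑ i ∈ s, x i) = ∑ i ∈ s, -(2 * x i) := by
    rw [Finset.mul_sum, Finset.sum_neg_distrib]
  rw [h2, Real.exp_sum]
  exact Finset.prod_le_prod (fun i _ => (Real.exp_pos _).le)
    (fun i _ => exp_neg_two_mul_le (h0 i) (h1 i))

/-- Weights. -/
noncomputable def wt (T j : ℕ) : ℝ := 1 / (1000 * ((max j T : ℕ) : ℝ) ^ 6)

theorem wt_nonneg (T j : ℕ) : 0 ≤ wt T j := by unfold wt; positivity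

theorem wt_le_half (T j : ℕ) (hT : 3000 ≤ T) : wt T j ≤ 1 / 2 := by
  unfold wt
  apply one_div_le_one_div_of_le (by norm_num)
  have h1 : (1 : ℝ) ≤ ((max j T : ℕ) : ℝ) := by
    have : 1 ≤ max j T := le_trans (by omega) (le_max_right j T)
    exact_mod_cast this
  have h2 : (1 : ℝ) ≤ ((max j T : ℕ) : ℝ) ^ 6 := one_le_pow₀ h1
  linarith

/-- Weighted sum over scales. -/
theorem sum_scales (T n : ℕ) (hT : 3000 ≤ T) (N : ℕ → ℕ)
    (h1 : ∀ j, j ≤ T → N j ≤ 18 * (T + 1) ^ 4) (h2 : ∀ j, T < j → N j ≤ 18 * j ^ 4) :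
    ∑ j ∈ range (n + 1), (N j : ℝ) * wt T j ≤ 54 / (1000 * T) := by
  have hTR : (3000 : ℝ) ≤ T := by exact_mod_cast hT
  have hTpos : (0 : ℝ) < T := by linarith
  have hb : ∀ j ∈ range (n + 1), (N j : ℝ) * wt T j ≤
      (if j ≤ T then 36 / (1000 * (T : ℝ) * (T + 1)) else 0) +
      (if T < j then 18 / 1000 * ((j : ℝ) ^ 2)⁻¹ else 0) := by
    intro j _
    rcases Nat.lt_or_ge T j with h | h
    · rw [if_neg (by omega), if_pos h, zero_add]
      have h3 : (N j : ℝ) ≤ 18 * (j : ℝ) ^ 4 := by exact_mod_cast h2 j h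
      have hjpos : (0 : ℝ) < j := by
        have : 0 < j := by omega
        exact_mod_cast this
      unfold wt
      rw [max_eq_left h.le]
      calc (N j : ℝ) * (1 / (1000 * (j : ℝ) ^ 6)) ≤ 18 * (j : ℝ) ^ 4 * (1 / (1000 * (j : ℝ) ^ 6)) := by
            apply mul_le_mul_of_nonneg_right h3 (by positivity)
        _ = 18 / 1000 * ((j : ℝ) ^ 2)⁻¹ := by
            field_simp
    · rw [if_pos h, if_neg (by omega), add_zero]
      have h3 : (N j : ℝ) ≤ 18 * ((T : ℝ) + 1) ^ 4 := by exact_mod_cast h1 j h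
      unfold wt
      rw [max_eq_right h]
      calc (N j : ℝ) * (1 / (1000 * (T : ℝ) ^ 6))
          ≤ 18 * ((T : ℝ) + 1) ^ 4 * (1 / (1000 * (T : ℝ) ^ 6)) := by
            apply mul_le_mul_of_nonneg_right h3 (by positivity)
        _ ≤ 36 / (1000 * (T : ℝ) * (T + 1)) := by
            rw [mul_one_div, div_le_div_iff₀ (by positivity) (by positivity)]
            have h4 : ((T : ℝ) + 1) ^ 5 ≤ 2 * (T : ℝ) ^ 5 := by
              have h5 : (T : ℝ) + 1 ≤ 1.001 * T := by linarith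
              calc ((T : ℝ) + 1) ^ 5 ≤ (1.001 * (T : ℝ)) ^ 5 :=
                    pow_le_pow_left₀ (by positivity) h5 5
                _ = 1.001 ^ 5 * (T : ℝ) ^ 5 := by rw [mul_pow]
                _ ≤ 2 * (T : ℝ) ^ 5 := by
                    apply mul_le_mul_of_nonneg_right _ (by positivity)
                    norm_num
            have h6 : 18 * ((T : ℝ) + 1) ^ 4 * (1000 * T * (T + 1))
                = 18000 * T * ((T : ℝ) + 1) ^ 5 := by ring
            have h7 : 36 * (1000 * (T : ℝ) ^ 6) = 18000 * T * (2 * (T : ℝ) ^ 5) := by ring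
            rw [h6, h7]
            apply mul_le_mul_of_nonneg_left h4 (by positivity)
  refine (Finset.sum_le_sum hb).trans ?_
  rw [Finset.sum_add_distrib]
  have e1 : ∑ j ∈ range (n + 1), (if j ≤ T then 36 / (1000 * (T : ℝ) * (T + 1)) else 0)
      ≤ 36 / (1000 * T) := by
    rw [← Finset.sum_filter, Finset.sum_const, nsmul_eq_mul]
    have hc : ((range (n + 1)).filter (fun j => j ≤ T)).card ≤ T + 1 := by
      calc ((range (n + 1)).filter (fun j => j ≤ T)).card ≤ (range (T + 1)).card := by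
            apply card_le_card
            intro j hj
            rw [mem_filter] at hj
            rw [mem_range]; omega
        _ = T + 1 := card_range _
    have hc' : (((range (n + 1)).filter (fun j => j ≤ T)).card : ℝ) ≤ T + 1 := by
      exact_mod_cast hc
    calc (((range (n + 1)).filter (fun j => j ≤ T)).card : ℝ) *
          (36 / (1000 * (T : ℝ) * (T + 1)))
        ≤ (T + 1) * (36 / (1000 * (T : ℝ) * (T + 1))) := by
          apply mul_le_mul_of_nonneg_right hc' (by positivity)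
      _ = 36 / (1000 * T) := by
          have : (T : ℝ) + 1 ≠ 0 := by positivity
          field_simp
  have e2 : ∑ j ∈ range (n + 1), (if T < j then 18 / 1000 * ((j : ℝ) ^ 2)⁻¹ else 0)
      ≤ 18 / (1000 * T) := by
    rw [← Finset.sum_filter, ← Finset.mul_sum]
    have h3 : ∑ j ∈ (range (n + 1)).filter (fun j => T < j), ((j : ℝ) ^ 2)⁻¹ ≤ (T : ℝ)⁻¹ := by
      rcases Nat.lt_or_ge T n with h | h
      · have h4 : (range (n + 1)).filter (fun j => T < j) = Ioc T n := by
          ext j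
          rw [mem_filter, mem_range, mem_Ioc]; omega
        rw [h4]
        have h5 := sum_Ioc_inv_sq_le_sub (α := ℝ) (k := T) (n := n) (by omega) h.le
        have h6 : (0 : ℝ) ≤ (n : ℝ)⁻¹ := by positivity
        linarith
      · have h4 : (range (n + 1)).filter (fun j => T < j) = ∅ := by
          apply Finset.filter_eq_empty_iff.mpr
          intro j hj
          rw [mem_range] at hj; omega
        rw [h4]
        simp
    calc 18 / 1000 * ∑ j ∈ (range (n + 1)).filter (fun j => T < j), ((j : ℝ) ^ 2)⁻¹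
        ≤ 18 / 1000 * (T : ℝ)⁻¹ := mul_le_mul_of_nonneg_left h3 (by norm_num)
      _ = 18 / (1000 * T) := by field_simp
  have e3 : (54 : ℝ) / (1000 * T) = 36 / (1000 * T) + 18 / (1000 * T) := by
    rw [← add_div]; norm_num
  rw [e3]
  exact add_le_add e1 e2

/-! ### Random colouring -/

section Prob

variable {V : Type*} [Fintype V] [DecidableEq V] {T : ℕ}

/-- The noise bit of an edge: set when its coordinate is `0`. -/
def noise (ω : Sym2 V → Fin T) (e : Sym2 V) : Bool := decide ((ω e).val = 0)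

/-- The cut colouring of a pair. -/
def cutc (σ : V → Bool) : Sym2 V → Bool :=
  Sym2.lift ⟨fun a b => xor (σ a) (σ b), fun _ _ => Bool.xor_comm _ _⟩

/-- The random colouring. -/
def chi (σ : V → Bool) (ω : Sym2 V → Fin T) (e : Sym2 V) : Bool := xor (cutc σ e) (noise ω e)

/-- Noise bit of `e` is set. -/
def ZE (T : ℕ) (e : Sym2 V) : Finset (Sym2 V → Fin T) := univ.filter (fun ω => noise ω e = true)

theorem mem_ZE (e : Sym2 V) (ω : Sym2 V → Fin T) : ω ∈ ZE T e ↔ noise ω e = true := by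
  simp [ZE]

theorem chi_mk (σ : V → Bool) (ω : Sym2 V → Fin T) (u w : V) :
    chi σ ω s(u, w) = xor (xor (σ u) (σ w)) (noise ω s(u, w)) := rfl

theorem bool_eq (a c x y : Bool) : (xor (xor a c) x = xor (xor a c) y) ↔ x = y := by
  revert a c x y; decide

theorem bool_ne (a b c x y : Bool) (h : a ≠ b) :
    (xor (xor a c) x = xor (xor b c) y) ↔ x ≠ y := by
  revert a b c x y; decide

theorem ZE_dependsOn (e : Sym2 V) : DependsOn (ZE T e) {e} := by
  intro ω ω' h
  have := h e (mem_singleton_self e)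
  rw [mem_ZE, mem_ZE, noise, noise, this]

theorem prob_ZE (hT : 0 < T) (e : Sym2 V) : prob (ZE T e) = 1 / (T : ℝ) := by
  have hcard : (ZE T e).card * T = Fintype.card (Sym2 V → Fin T) := by
    rw [← Finset.card_univ (α := Sym2 V → Fin T)]
    have h1 : ((ZE T e) ×ˢ (univ : Finset (Fin T))).card = (ZE T e).card * T := by
      rw [card_product, Finset.card_univ, Fintype.card_fin]
    rw [← h1]
    refine Finset.card_bij' (fun p _ => Function.update p.1 e p.2)
      (fun ω _ => (Function.update ω e ⟨0, hT⟩, ω e)) ?_ ?_ ?_ ?_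
    · intro p _; exact mem_univ _
    · intro ω _
      rw [mem_product]
      refine ⟨?_, mem_univ _⟩
      simp [ZE, noise]
    · rintro ⟨ω, a⟩ h
      rw [mem_product] at h
      have h2 : (ω e).val = 0 := by
        have := h.1
        simpa [ZE, noise] using this
      have h3 : (⟨0, hT⟩ : Fin T) = ω e := Fin.ext h2.symm
      simp only [Function.update_idem, Function.update_self, Prod.mk.injEq, and_true]
      rw [h3, Function.update_eq_self]
    · intro ω _
      simp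
  have hTR : (0 : ℝ) < T := by exact_mod_cast hT
  have hc := card_pos (E := Sym2 V) hT
  unfold prob
  rw [div_eq_div_iff hc.ne' hTR.ne', one_mul]
  exact_mod_cast hcard

theorem prob_union_le (A B : Finset (Sym2 V → Fin T)) : prob (A ∪ B) ≤ prob A + prob B := by
  unfold prob
  rw [← add_div]
  gcongr
  exact_mod_cast card_union_le A B

/-- Probability that two different noise bits differ is at most `2/T`. -/
theorem prob_ne_le (hT : 0 < T) (e1 e2 : Sym2 V) :
    prob (univ.filter (fun ω : Sym2 V → Fin T => noise ω e1 ≠ noise ω e2)) ≤ 2 / (T : ℝ) := by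
  have h1 : (univ.filter (fun ω : Sym2 V → Fin T => noise ω e1 ≠ noise ω e2))
      ⊆ ZE T e1 ∪ ZE T e2 := by
    intro ω hω
    simp only [mem_filter, mem_univ, true_and] at hω
    simp only [ZE, mem_union, mem_filter, mem_univ, true_and]
    cases h : noise ω e1 <;> cases h' : noise ω e2 <;> simp_all
  calc prob _ ≤ prob (ZE T e1 ∪ ZE T e2) := prob_mono h1
    _ ≤ prob (ZE T e1) + prob (ZE T e2) := prob_union_le _ _
    _ = 2 / (T : ℝ) := by rw [prob_ZE hT, prob_ZE hT]; ring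

/-- Probability that two different noise bits agree is at most `1 - 1/T`. -/
theorem prob_eq_le (hT : 2 ≤ T) (e1 e2 : Sym2 V) (hne : e1 ≠ e2) :
    prob (univ.filter (fun ω : Sym2 V → Fin T => noise ω e1 = noise ω e2)) ≤ 1 - 1 / (T : ℝ) := by
  have hT0 : 0 < T := by omega
  have hTR : (2 : ℝ) ≤ T := by exact_mod_cast hT
  have hd : Disjoint ({e1} : Finset (Sym2 V)) {e2} := by
    rw [Finset.disjoint_singleton]; exact hne
  have hA : prob (ZE T e1 ∩ (ZE T e2)ᶜ) = 1 / (T : ℝ) * (1 - 1 / T) := by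
    rw [prob_inter_of_disjoint hT0 (ZE_dependsOn e1) (ZE_dependsOn e2).compl hd,
      prob_compl hT0, prob_ZE hT0, prob_ZE hT0]
  have hB : prob (ZE T e2 ∩ (ZE T e1)ᶜ) = 1 / (T : ℝ) * (1 - 1 / T) := by
    rw [prob_inter_of_disjoint hT0 (ZE_dependsOn e2) (ZE_dependsOn e1).compl hd.symm,
      prob_compl hT0, prob_ZE hT0, prob_ZE hT0]
  set F := univ.filter (fun ω : Sym2 V → Fin T => noise ω e1 = noise ω e2) with hF
  have hFc : Fᶜ = (ZE T e1 ∩ (ZE T e2)ᶜ) ∪ (ZE T e2 ∩ (ZE T e1)ᶜ) := by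
    ext ω
    simp only [hF, ZE, mem_compl, mem_filter, mem_univ, true_and, mem_union, mem_inter]
    cases h : noise ω e1 <;> cases h' : noise ω e2 <;> simp
  have hdis : Disjoint (ZE T e1 ∩ (ZE T e2)ᶜ) (ZE T e2 ∩ (ZE T e1)ᶜ) := by
    rw [Finset.disjoint_left]
    intro ω h h'
    rw [mem_inter] at h h'
    exact (mem_compl.mp h'.2) h.1
  have hsum : prob Fᶜ = 2 * (1 / (T : ℝ) * (1 - 1 / T)) := by
    rw [hFc]
    have : prob ((ZE T e1 ∩ (ZE T e2)ᶜ) ∪ (ZE T e2 ∩ (ZE T e1)ᶜ))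
        = prob (ZE T e1 ∩ (ZE T e2)ᶜ) + prob (ZE T e2 ∩ (ZE T e1)ᶜ) := by
      unfold prob
      rw [card_union_of_disjoint hdis, Nat.cast_add, add_div]
    rw [this, hA, hB]; ring
  rw [prob_compl hT0] at hsum
  have h1 : 1 / (T : ℝ) ≤ 1 / 2 := by
    apply one_div_le_one_div_of_le (by norm_num) hTR
  have h2 : 0 < 1 / (T : ℝ) := by positivity
  nlinarith

/-- The event that the two edges to `w` get the same colour. -/
def FW (T : ℕ) (σ : V → Bool) (u v w : V) : Finset (Sym2 V → Fin T) :=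
  univ.filter (fun ω => chi σ ω s(u, w) = chi σ ω s(v, w))

theorem mem_FW (σ : V → Bool) (u v w : V) (ω : Sym2 V → Fin T) :
    ω ∈ FW T σ u v w ↔ chi σ ω s(u, w) = chi σ ω s(v, w) := by
  simp [FW]

theorem FW_dependsOn (σ : V → Bool) (u v w : V) :
    DependsOn (FW T σ u v w) {s(u, w), s(v, w)} := by
  intro ω ω' h
  have h1 := h s(u, w) (by simp)
  have h2 := h s(v, w) (by simp)
  rw [mem_FW, mem_FW, chi, chi, chi, chi, noise, noise, noise, noise, h1, h2]

theorem FW_eq_of_eq (σ : V → Bool) (u v w : V) (hσ : σ u = σ v) :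
    FW T σ u v w = univ.filter (fun ω : Sym2 V → Fin T =>
      noise ω s(u, w) = noise ω s(v, w)) := by
  ext ω
  rw [mem_FW, mem_filter, chi_mk, chi_mk, hσ, bool_eq]
  simp

theorem FW_eq_of_ne (σ : V → Bool) (u v w : V) (hσ : σ u ≠ σ v) :
    FW T σ u v w = univ.filter (fun ω : Sym2 V → Fin T =>
      noise ω s(u, w) ≠ noise ω s(v, w)) := by
  ext ω
  rw [mem_FW, mem_filter, chi_mk, chi_mk, bool_ne _ _ _ _ _ hσ]
  simp

theorem prob_FW_le (hT : 2 ≤ T) (σ : V → Bool) (u v w : V) (huv : u ≠ v) (hvw : v ≠ w)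
    (huw : u ≠ w) : prob (FW T σ u v w) ≤ 1 - 1 / (T : ℝ) := by
  have hT0 : 0 < T := by omega
  have hTR : (2 : ℝ) ≤ T := by exact_mod_cast hT
  have hne : (s(u, w) : Sym2 V) ≠ s(v, w) := by
    intro h
    rw [Sym2.eq_iff] at h
    rcases h with ⟨h, _⟩ | ⟨h, _⟩
    · exact huv h
    · exact huw h
  by_cases hσ : σ u = σ v
  · rw [FW_eq_of_eq σ u v w hσ]
    exact prob_eq_le hT _ _ hne
  · have hcompl : univ.filter (fun ω : Sym2 V → Fin T =>
        noise ω s(u, w) ≠ noise ω s(v, w)) = (univ.filter (fun ω : Sym2 V → Fin T =>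
        noise ω s(u, w) = noise ω s(v, w)))ᶜ := by
      ext ω; simp
    have hd : Disjoint ({s(u, w)} : Finset (Sym2 V)) {s(v, w)} := by
      rw [Finset.disjoint_singleton]; exact hne
    -- both bits unset has probability (1-1/T)^2 >= 1/4 ... use complement bound
    have hlow : prob ((ZE T s(u, w))ᶜ ∩ (ZE T s(v, w))ᶜ) = (1 - 1 / (T : ℝ)) * (1 - 1 / T) := by
      rw [prob_inter_of_disjoint hT0 (ZE_dependsOn _).compl (ZE_dependsOn _).compl hd,
        prob_compl hT0, prob_compl hT0, prob_ZE hT0, prob_ZE hT0]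
    have hlow2 : prob ((ZE T s(u, w)) ∩ (ZE T s(v, w))) = (1 / (T : ℝ)) * (1 / T) := by
      rw [prob_inter_of_disjoint hT0 (ZE_dependsOn _) (ZE_dependsOn _) hd,
        prob_ZE hT0, prob_ZE hT0]
    have hdis : Disjoint ((ZE T s(u, w))ᶜ ∩ (ZE T s(v, w))ᶜ)
        ((ZE T s(u, w)) ∩ (ZE T s(v, w))) := by
      rw [Finset.disjoint_left]
      intro ω h h'
      rw [mem_inter] at h h'
      exact (mem_compl.mp h.1) h'.1
    have hsub : ((ZE T s(u, w))ᶜ ∩ (ZE T s(v, w))ᶜ) ∪ ((ZE T s(u, w)) ∩ (ZE T s(v, w)))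
        ⊆ univ.filter (fun ω : Sym2 V → Fin T => noise ω s(u, w) = noise ω s(v, w)) := by
      intro ω
      simp only [ZE, mem_compl, mem_filter, mem_univ, true_and, mem_union, mem_inter]
      cases h : noise ω s(u, w) <;> cases h' : noise ω s(v, w) <;> simp
    have hge : (1 - 1 / (T : ℝ)) * (1 - 1 / T) + (1 / (T : ℝ)) * (1 / T) ≤
        prob (univ.filter (fun ω : Sym2 V → Fin T => noise ω s(u, w) = noise ω s(v, w))) := by
      rw [← hlow, ← hlow2]
      have : prob (((ZE T s(u, w))ᶜ ∩ (ZE T s(v, w))ᶜ) ∪ ((ZE T s(u, w)) ∩ (ZE T s(v, w))))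
          = prob ((ZE T s(u, w))ᶜ ∩ (ZE T s(v, w))ᶜ) +
            prob ((ZE T s(u, w)) ∩ (ZE T s(v, w))) := by
        unfold prob
        rw [card_union_of_disjoint hdis, Nat.cast_add, add_div]
      rw [← this]
      exact prob_mono hsub
 
    rw [FW_eq_of_ne σ u v w hσ, hcompl, prob_compl hT0]
    have h1' : 1 / (T : ℝ) ≤ 1 / 2 := one_div_le_one_div_of_le (by norm_num) hTR
    have h2 : 0 < 1 / (T : ℝ) := by positivity
    nlinarith

theorem prob_FW_le_of_ne (hT : 2 ≤ T) (σ : V → Bool) (u v w : V) (hσ : σ u ≠ σ v) :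
    prob (FW T σ u v w) ≤ 2 / (T : ℝ) := by
  have hT0 : 0 < T := by omega
  rw [FW_eq_of_ne σ u v w hσ]
  exact prob_ne_le hT0 _ _

/-- The event that all `w ∈ W` fail. -/
def BW (T : ℕ) (σ : V → Bool) (u v : V) (W : Finset V) : Finset (Sym2 V → Fin T) :=
  univ.filter (fun ω => ∀ w ∈ W, chi σ ω s(u, w) = chi σ ω s(v, w))

/-- The coordinates it depends on. -/
def SW (u v : V) (W : Finset V) : Finset (Sym2 V) := W.biUnion (fun w => {s(u, w), s(v, w)})

theorem mem_BW (σ : V → Bool) (u v : V) (W : Finset V) (ω : Sym2 V → Fin T) :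
    ω ∈ BW T σ u v W ↔ ∀ w ∈ W, chi σ ω s(u, w) = chi σ ω s(v, w) := by
  simp [BW]

theorem BW_dependsOn (σ : V → Bool) (u v : V) (W : Finset V) :
    DependsOn (BW T σ u v W) (SW u v W) := by
  intro ω ω' h
  have h1 : ∀ w ∈ W, (chi σ ω s(u, w) = chi σ ω s(v, w) ↔ chi σ ω' s(u, w) = chi σ ω' s(v, w)) := by
    intro w hw
    have ha := h s(u, w) (mem_biUnion.mpr ⟨w, hw, by simp⟩)
    have hb := h s(v, w) (mem_biUnion.mpr ⟨w, hw, by simp⟩)
    rw [chi, chi, chi, chi, noise, noise, noise, noise, ha, hb]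
  rw [mem_BW, mem_BW]
  exact ⟨fun h' w hw => (h1 w hw).mp (h' w hw), fun h' w hw => (h1 w hw).mpr (h' w hw)⟩

theorem prob_BW_le (hT : 2 ≤ T) (σ : V → Bool) (u v : V) (huv : u ≠ v) (q : ℝ) (hq0 : 0 ≤ q)
    (W : Finset V) (hu : u ∉ W) (hv : v ∉ W) (hq : ∀ w ∈ W, prob (FW T σ u v w) ≤ q) :
    prob (BW T σ u v W) ≤ q ^ W.card := by
  have hT0 : 0 < T := by omega
  induction W using Finset.induction_on with
  | empty =>
    have : BW T σ u v (∅ : Finset V) = univ := by ext ω; simp [BW]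
    rw [this, prob_univ hT0]
    simp
  | insert a W ha ih =>
    have hu' : u ∉ W := fun h => hu (mem_insert_of_mem h)
    have hv' : v ∉ W := fun h => hv (mem_insert_of_mem h)
    have hua : u ≠ a := fun h => hu (h ▸ mem_insert_self a W)
    have hva : v ≠ a := fun h => hv (h ▸ mem_insert_self a W)
    have h1 : BW T σ u v (insert a W) = FW T σ u v a ∩ BW T σ u v W := by
      ext ω
      rw [mem_BW, mem_inter, mem_FW, mem_BW]
      simp only [mem_insert, forall_eq_or_imp]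
    have hd : Disjoint ({s(u, a), s(v, a)} : Finset (Sym2 V)) (SW u v W) := by
      rw [Finset.disjoint_left]
      intro e he he'
      obtain ⟨w, hw, hew⟩ := mem_biUnion.mp he'
      have hwa : w ≠ a := fun h => ha (h ▸ hw)
      have hwu : w ≠ u := fun h => hu' (h ▸ hw)
      have hwv : w ≠ v := fun h => hv' (h ▸ hw)
      simp only [mem_insert, mem_singleton] at he hew
      rcases he with rfl | rfl <;> rcases hew with h | h <;> rw [Sym2.eq_iff] at h <;> tauto
    rw [h1, prob_inter_of_disjoint hT0 (FW_dependsOn σ u v a) (BW_dependsOn σ u v W) hd,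
      card_insert_of_notMem ha, pow_succ, mul_comm (q ^ W.card) q]
    apply mul_le_mul (hq a (mem_insert_self a W))
      (ih hu' hv' (fun w hw => hq w (mem_insert_of_mem hw))) (prob_nonneg _) hq0

end Prob

end Pool.Agent.H58.Rainbow
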