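import Pool.Agent.H58.Rainbow

set_option autoImplicit false

/-!
Assembly: if `deg v ≥ n/2` for all `v` and non-adjacent vertices have more than `3000^3` common
neighbours, then some 2-colouring of the edges gives every non-adjacent pair a bichromatic path of
length two.
-/

namespace Pool.Agent.H58.Rainbow

open Finset Pool.Agent.H58.LLL Pool.Agent.H58.Danger

variable {V : Type*} [Fintype V] [DecidableEq V] (G : SimpleGraph V) [DecidableRel G.Adj]

/-- Vertices different from and not adjacent to `y`. -/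
def nonNbr (y : V) : Finset V := univ.filter (fun v => y ≠ v ∧ ¬ G.Adj y v)

theorem mem_nonNbr (y v : V) : v ∈ nonNbr G y ↔ y ≠ v ∧ ¬ G.Adj y v := by
  simp [nonNbr]

variable {G}

/-- The total weight of the pairs at a vertex. -/
theorem vertex_sum (T : ℕ) (hT : 3000 ≤ T)
    (hcnt : ∀ j, T < j → ∀ u, (univ.filter (fun v => (DG G j).Adj u v)).card ≤ 18 * j ^ 4)
    (y : V) : ∑ v ∈ nonNbr G y, wt T (com G y v).card ≤ 54 / (1000 * T) := by
  have h1 : ∀ v ∈ nonNbr G y, (com G y v).card ∈ range (Fintype.card V + 1) := by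
    intro v _
    rw [mem_range]
    have := card_le_univ (com G y v)
    omega
  rw [← Finset.sum_fiberwise_of_maps_to h1]
  set N : ℕ → ℕ := fun j => ((nonNbr G y).filter (fun v => (com G y v).card = j)).card with hN
  have h2 : ∀ j ∈ range (Fintype.card V + 1),
      ∑ v ∈ (nonNbr G y).filter (fun v => (com G y v).card = j), wt T (com G y v).card
        = (N j : ℝ) * wt T j := by
    intro j _
    rw [Finset.sum_congr rfl (g := fun _ => wt T j)]
    · rw [Finset.sum_const, nsmul_eq_mul]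
    · intro v hv
      rw [(mem_filter.mp hv).2]
  rw [Finset.sum_congr rfl h2]
  have hle : ∀ j s : ℕ, j ≤ s → T < s → N j ≤ 18 * s ^ 4 := by
    intro j s hjs hTs
    refine le_trans (card_le_card ?_) (hcnt s hTs y)
    intro v hv
    rw [mem_filter, mem_nonNbr] at hv
    rw [mem_filter]
    exact ⟨mem_univ _, hv.1.1, hv.1.2, by rw [hv.2]; exact hjs⟩
  apply sum_scales T (Fintype.card V) hT N
  · intro j hj
    exact hle j (T + 1) (by omega) (by omega)
  · intro j hj
    exact hle j j le_rfl hj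

/-- The index set: ordered pairs of distinct non-adjacent vertices. -/
def pairs (G : SimpleGraph V) [DecidableRel G.Adj] : Finset (V × V) :=
  univ.filter (fun p => p.1 ≠ p.2 ∧ ¬ G.Adj p.1 p.2)

theorem mem_pairs (p : V × V) : p ∈ pairs G ↔ p.1 ≠ p.2 ∧ ¬ G.Adj p.1 p.2 := by
  simp [pairs]

/-- Total weight of the neighbours in the dependency graph. -/
theorem nbr_sum (T : ℕ) (hT : 3000 ≤ T)
    (hcnt : ∀ j, T < j → ∀ u, (univ.filter (fun v => (DG G j).Adj u v)).card ≤ 18 * j ^ 4)
    (i : V × V) :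
    ∑ j ∈ nbr (fun p : V × V => SW p.1 p.2 (com G p.1 p.2)) (pairs G) i,
        wt T (com G j.1 j.2).card
      ≤ 2 * (((com G i.1 i.2).card : ℝ) + 2) * (54 / (1000 * T)) := by
  set K : Finset V := insert i.1 (insert i.2 (com G i.1 i.2)) with hK
  have hKcard : K.card ≤ (com G i.1 i.2).card + 2 := by
    have h1 : K.card ≤ (insert i.2 (com G i.1 i.2)).card + 1 := card_insert_le _ _
    have h2 : (insert i.2 (com G i.1 i.2)).card ≤ (com G i.1 i.2).card + 1 := card_insert_le _ _
    omega
  have hKcard' : (K.card : ℝ) ≤ ((com G i.1 i.2).card : ℝ) + 2 := by exact_mod_cast hKcard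
  have hXpos : (0 : ℝ) ≤ 54 / (1000 * T) := by positivity
  have hsub : nbr (fun p : V × V => SW p.1 p.2 (com G p.1 p.2)) (pairs G) i ⊆
      (pairs G).filter (fun p => p.1 ∈ K) ∪ (pairs G).filter (fun p => p.2 ∈ K) := by
    intro j hj
    rw [nbr, mem_filter] at hj
    obtain ⟨hjP, _, hnd⟩ := hj
    rw [Finset.not_disjoint_iff] at hnd
    obtain ⟨e, he, he'⟩ := hnd
    obtain ⟨w, hw, hew⟩ := mem_biUnion.mp he
    obtain ⟨w', hw', hew'⟩ := mem_biUnion.mp he'
    rw [mem_union, mem_filter, mem_filter]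
    have hwK : w ∈ K := mem_insert_of_mem (mem_insert_of_mem hw)
    have h1K : i.1 ∈ K := mem_insert_self _ _
    have h2K : i.2 ∈ K := mem_insert_of_mem (mem_insert_self _ _)
    have hor : j.1 ∈ K ∨ j.2 ∈ K := by
      simp only [mem_insert, mem_singleton] at hew hew'
      rcases hew with rfl | rfl <;> rcases hew' with h | h <;> rw [Sym2.eq_iff] at h <;>
        rcases h with ⟨h, _⟩ | ⟨_, h⟩
      · left; rw [← h]; exact h1K
      · left; rw [← h]; exact hwK
      · right; rw [← h]; exact h1K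
      · right; rw [← h]; exact hwK
      · left; rw [← h]; exact h2K
      · left; rw [← h]; exact hwK
      · right; rw [← h]; exact h2K
      · right; rw [← h]; exact hwK
    rcases hor with h | h
    · exact Or.inl ⟨hjP, h⟩
    · exact Or.inr ⟨hjP, h⟩
  have hnn : ∀ j : V × V, 0 ≤ wt T (com G j.1 j.2).card := fun j => wt_nonneg _ _
  have hA : ∑ j ∈ (pairs G).filter (fun p => p.1 ∈ K), wt T (com G j.1 j.2).card
      ≤ (K.card : ℝ) * (54 / (1000 * T)) := by
    rw [Finset.sum_finset_product ((pairs G).filter (fun p => p.1 ∈ K)) K (nonNbr G)]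
    · calc ∑ y ∈ K, ∑ v ∈ nonNbr G y, wt T (com G (y, v).1 (y, v).2).card
          ≤ ∑ y ∈ K, 54 / (1000 * (T : ℝ)) :=
            Finset.sum_le_sum (fun y _ => vertex_sum T hT hcnt y)
        _ = (K.card : ℝ) * (54 / (1000 * T)) := by rw [Finset.sum_const, nsmul_eq_mul]
    · intro p
      rw [mem_filter, mem_pairs, mem_nonNbr]
      tauto
  have hB : ∑ j ∈ (pairs G).filter (fun p => p.2 ∈ K), wt T (com G j.1 j.2).card
      ≤ (K.card : ℝ) * (54 / (1000 * T)) := by
    rw [Finset.sum_finset_product_right ((pairs G).filter (fun p => p.2 ∈ K)) K (nonNbr G)]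
    · calc ∑ y ∈ K, ∑ v ∈ nonNbr G y, wt T (com G (v, y).1 (v, y).2).card
          = ∑ y ∈ K, ∑ v ∈ nonNbr G y, wt T (com G y v).card := by
            refine Finset.sum_congr rfl (fun y _ => Finset.sum_congr rfl (fun v _ => ?_))
            rw [com_comm]
        _ ≤ ∑ y ∈ K, 54 / (1000 * (T : ℝ)) :=
            Finset.sum_le_sum (fun y _ => vertex_sum T hT hcnt y)
        _ = (K.card : ℝ) * (54 / (1000 * T)) := by rw [Finset.sum_const, nsmul_eq_mul]
    · intro p
      rw [mem_filter, mem_pairs, mem_nonNbr]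
      constructor
      · rintro ⟨⟨h1, h2⟩, h3⟩
        exact ⟨h3, h1.symm, fun h => h2 h.symm⟩
      · rintro ⟨h3, h1, h2⟩
        exact ⟨⟨h1.symm, fun h => h2 h.symm⟩, h3⟩
  calc ∑ j ∈ nbr (fun p : V × V => SW p.1 p.2 (com G p.1 p.2)) (pairs G) i,
        wt T (com G j.1 j.2).card
      ≤ ∑ j ∈ (pairs G).filter (fun p => p.1 ∈ K) ∪ (pairs G).filter (fun p => p.2 ∈ K),
          wt T (com G j.1 j.2).card :=
        Finset.sum_le_sum_of_subset_of_nonneg hsub (fun j _ _ => hnn j)
    _ ≤ ∑ j ∈ (pairs G).filter (fun p => p.1 ∈ K), wt T (com G j.1 j.2).card +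
        ∑ j ∈ (pairs G).filter (fun p => p.2 ∈ K), wt T (com G j.1 j.2).card := by
        rw [← Finset.sum_union_inter]
        have : 0 ≤ ∑ j ∈ (pairs G).filter (fun p => p.1 ∈ K) ∩
            (pairs G).filter (fun p => p.2 ∈ K), wt T (com G j.1 j.2).card :=
          Finset.sum_nonneg (fun j _ => hnn j)
        linarith
    _ ≤ (K.card : ℝ) * (54 / (1000 * T)) + (K.card : ℝ) * (54 / (1000 * T)) :=
        add_le_add hA hB
    _ = 2 * (K.card : ℝ) * (54 / (1000 * T)) := by ring
    _ ≤ 2 * (((com G i.1 i.2).card : ℝ) + 2) * (54 / (1000 * T)) := by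
        apply mul_le_mul_of_nonneg_right _ hXpos
        linarith

/-- Main existence theorem. -/
theorem exists_colouring (hdeg : ∀ v, Fintype.card V ≤ 2 * G.degree v)
    (hcom : ∀ u v, u ≠ v → ¬ G.Adj u v → 3000 ^ 3 < (com G u v).card) :
    ∃ χ : Sym2 V → Bool, ∀ u v, u ≠ v → ¬ G.Adj u v →
      ∃ w ∈ com G u v, χ s(u, w) ≠ χ s(v, w) := by
  obtain ⟨T, hT, hcol, hcnt⟩ := exists_scale hdeg 3000 (by norm_num) hcom
  have hTR : (3000 : ℝ) ≤ T := by exact_mod_cast hT
  have hTpos : (0 : ℝ) < T := by linarith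
  have hT2 : 2 ≤ T := by omega
  have hT0 : 0 < T := by omega
  obtain ⟨C⟩ := hcol
  let σ : V → Bool := fun v => decide (C v = 0)
  have hσ : ∀ u v, (DG G (T ^ 3)).Adj u v → σ u ≠ σ v := by
    intro u v huv
    have h1 := C.valid huv
    simp only [σ]
    intro h2
    apply h1
    rw [decide_eq_decide] at h2
    generalize C u = a at h1 h2 ⊢
    generalize C v = b at h1 h2 ⊢
    revert a b
    decide
  let A : V × V → Finset (Sym2 V → Fin T) := fun p => BW T σ p.1 p.2 (com G p.1 p.2)
  let S : V × V → Finset (Sym2 V) := fun p => SW p.1 p.2 (com G p.1 p.2)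
  let x : V × V → ℝ := fun p => wt T (com G p.1 p.2).card
  have hx0 : ∀ i, 0 ≤ x i := fun i => wt_nonneg _ _
  have hxh : ∀ i, x i ≤ 1 / 2 := fun i => wt_le_half _ _ hT
  have hx1 : ∀ i, x i < 1 := fun i => by linarith [hxh i]
  have hdep : ∀ i, DependsOn (A i) (S i) := fun i => BW_dependsOn σ i.1 i.2 _
  have hmain : ∀ i ∈ pairs G, prob (A i) ≤ x i * ∏ j ∈ nbr S (pairs G) i, (1 - x j) := by
    intro i hi
    rw [mem_pairs] at hi
    obtain ⟨hne, hnadj⟩ := hi
    set c : ℕ := (com G i.1 i.2).card with hc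
    have hcbig : 3000 ^ 3 < c := hcom i.1 i.2 hne hnadj
    have hcR : (2 : ℝ) ≤ c := by
      have : 2 ≤ c := by omega
      exact_mod_cast this
    have hu : i.1 ∉ com G i.1 i.2 := by
      simp [com]
    have hv : i.2 ∉ com G i.1 i.2 := by
      simp [com]
    have hprod : Real.exp (-((c : ℝ) / (2 * T))) ≤ ∏ j ∈ nbr S (pairs G) i, (1 - x j) := by
      refine le_trans ?_ (prod_one_sub_ge (nbr S (pairs G) i) x hx0 hxh)
      apply Real.exp_le_exp.mpr
      have h1 := nbr_sum T hT hcnt i
      have h2 : 4 * ((c : ℝ) + 2) * (54 / (1000 * T)) ≤ (c : ℝ) / (2 * T) := by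
        rw [mul_div_assoc', div_le_div_iff₀ (by positivity) (by positivity)]
        nlinarith
      have h3 : 2 * ∑ j ∈ nbr S (pairs G) i, x j ≤ 4 * ((c : ℝ) + 2) * (54 / (1000 * T)) := by
        calc 2 * ∑ j ∈ nbr S (pairs G) i, x j
            ≤ 2 * (2 * ((c : ℝ) + 2) * (54 / (1000 * T))) :=
              mul_le_mul_of_nonneg_left h1 (by norm_num)
          _ = 4 * ((c : ℝ) + 2) * (54 / (1000 * T)) := by ring
      linarith
    have hexp0 : 0 ≤ Real.exp (-((c : ℝ) / (2 * T))) := (Real.exp_pos _).le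
    refine le_trans ?_ (mul_le_mul_of_nonneg_left hprod (hx0 i))
    rcases Nat.lt_or_ge (T ^ 3) c with hcT | hcT
    · -- many common neighbours
      have h1 : prob (A i) ≤ (1 - 1 / (T : ℝ)) ^ c := by
        apply prob_BW_le hT2 σ i.1 i.2 hne (1 - 1 / (T : ℝ)) _ _ hu hv
        · intro w hw
          apply prob_FW_le hT2 σ i.1 i.2 w hne
          · rintro rfl; exact hv hw
          · rintro rfl; exact hu hw
        · have : 1 / (T : ℝ) ≤ 1 := by
            rw [div_le_one hTpos]; linarith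
          linarith
      have h2 : (1 - 1 / (T : ℝ)) ^ c ≤ Real.exp (-((c : ℝ) / T)) := by
        have h3 : 1 - 1 / (T : ℝ) ≤ Real.exp (-(1 / (T : ℝ))) := by
          have := Real.add_one_le_exp (-(1 / (T : ℝ)))
          linarith
        have h4 : 0 ≤ 1 - 1 / (T : ℝ) := by
          have : 1 / (T : ℝ) ≤ 1 := by
            rw [div_le_one hTpos]; linarith
          linarith
        calc (1 - 1 / (T : ℝ)) ^ c ≤ Real.exp (-(1 / (T : ℝ))) ^ c := pow_le_pow_left₀ h4 h3 c
          _ = Real.exp (-((c : ℝ) / T)) := by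
            rw [← Real.exp_nat_mul]
            congr 1
            ring
      have h5 : Real.exp (-((c : ℝ) / T)) =
          Real.exp (-((c : ℝ) / (2 * T))) * Real.exp (-((c : ℝ) / (2 * T))) := by
        rw [← Real.exp_add]
        congr 1
        field_simp
        ring
      have h6 := num2 T c hT hcT
      have h7 : x i = 1 / (1000 * (c : ℝ) ^ 6) := by
        have h8 : max c T = c := by
          apply max_eq_left
          have : T ≤ T ^ 3 := Nat.le_self_pow (by norm_num) T
          omega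
        change wt T c = _
        unfold wt
        rw [h8]
      rw [← h7] at h6
      calc prob (A i) ≤ (1 - 1 / (T : ℝ)) ^ c := h1
        _ ≤ Real.exp (-((c : ℝ) / T)) := h2
        _ = Real.exp (-((c : ℝ) / (2 * T))) * Real.exp (-((c : ℝ) / (2 * T))) := h5
        _ ≤ x i * Real.exp (-((c : ℝ) / (2 * T))) := mul_le_mul_of_nonneg_right h6 hexp0
    · -- few common neighbours
      have hs := hσ i.1 i.2 ⟨hne, hnadj, hcT⟩
      have h1 : prob (A i) ≤ (2 / (T : ℝ)) ^ c := by
        apply prob_BW_le hT2 σ i.1 i.2 hne (2 / (T : ℝ)) (by positivity) _ hu hv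
        intro w _
        exact prob_FW_le_of_ne hT2 σ i.1 i.2 w hs
      have h2 : (3 / (T : ℝ)) ^ c ≤ x i := num1 T c hT (by omega)
      have h3 : (2 / 3 : ℝ) ^ c ≤ Real.exp (-((c : ℝ) / (2 * T))) := by
        have h4 : (2 / 3 : ℝ) ≤ Real.exp (-(1 / (2 * (T : ℝ)))) := by
          have h5 := Real.add_one_le_exp (-(1 / (2 * (T : ℝ))))
          have h6 : 1 / (2 * (T : ℝ)) ≤ 1 / 3 := by
            apply one_div_le_one_div_of_le (by norm_num)
            linarith
          linarith
        calc (2 / 3 : ℝ) ^ c ≤ Real.exp (-(1 / (2 * (T : ℝ)))) ^ c :=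
              pow_le_pow_left₀ (by norm_num) h4 c
          _ = Real.exp (-((c : ℝ) / (2 * T))) := by
            rw [← Real.exp_nat_mul]
            congr 1
            ring
      calc prob (A i) ≤ (2 / (T : ℝ)) ^ c := h1
        _ = (3 / (T : ℝ)) ^ c * (2 / 3) ^ c := by
          rw [← mul_pow]
          congr 1
          ring
        _ ≤ x i * Real.exp (-((c : ℝ) / (2 * T))) :=
          mul_le_mul h2 h3 (by positivity) (hx0 i)
  obtain ⟨ω, hω⟩ := exists_avoid A S hT0 hdep x hx0 hx1 (pairs G) hmain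
  refine ⟨chi σ ω, ?_⟩
  intro u v huv hnadj
  have h1 := hω (u, v) (by rw [mem_pairs]; exact ⟨huv, hnadj⟩)
  have h2 : ¬ ∀ w ∈ com G u v, chi σ ω s(u, w) = chi σ ω s(v, w) := by
    intro h
    exact h1 ((mem_BW σ u v (com G u v) ω).mpr h)
  push Not at h2
  exact h2

end Pool.Agent.H58.Rainbow
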